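import Pool.Agent.H60.AP.Defs

/-!
# CDiff: `cc n k - cc (n-1) k` in closed form

PROOF.  Statement: for `k, j` and `n = k + j + 1`:
`cc (k+j+1) k - cc (k+j) k = (-1)^j * 2 * k!^2 * j! / ((k+j+1) * (2k+j+1)!)`.
Induction on `k` for all `j`.  `k = 0`: the left side is `2 (-1)^(j+2)/(j+1)^2` and `j!/(j+1)! = 1/(j+1)`.
Step: for `(k+1, j)` we have `n = k + 1 + j + 1 = k + (j+1) + 1`; by `cc_succ_right`
`cc n (k+1) - cc (n-1) (k+1) = [cc n k - cc (n-1) k] + ee n (k+1) - ee (n-1) (k+1)`, the bracket by the induction hypothesis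
for `(k, j+1)`, and `ee n (k+1) = (-1)^(n+k) / ((k+1)^2 C(n,k+1) C(n+k+1,k+1))` with `C(a+b,a) = (a+b)!/(a! b!)`
(`Nat.cast_add_choose`).  `field_simp`, `ring` after `Nat.factorial_succ`.  About 80 lines.  (Numerically checked.)
-/

set_option autoImplicit false

namespace Pool.Agent.H60.AP

open Finset

private theorem CDiff_ee (a b : ℕ) : ee (a + 1 + b) (a + 1) =
    (-1) ^ (a + 1 + b + (a + 1) + 1) * ((a.factorial : ℚ) ^ 2 * (b.factorial : ℚ) /
      ((2 * a + b + 2).factorial : ℚ)) := by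
  unfold ee
  have h1 : ((a + 1 + b).choose (a + 1) : ℚ) =
      ((a + 1 + b).factorial : ℚ) / (((a + 1).factorial : ℚ) * (b.factorial : ℚ)) :=
    Nat.cast_add_choose ℚ
  have h2 : ((a + 1 + b + (a + 1)).choose (a + 1) : ℚ) =
      ((2 * a + b + 2).factorial : ℚ) / (((a + 1).factorial : ℚ) * ((a + 1 + b).factorial : ℚ)) := by
    have h3 : a + 1 + b + (a + 1) = (a + 1) + (a + 1 + b) := by ring
    have h4 : 2 * a + b + 2 = (a + 1) + (a + 1 + b) := by ring
    rw [h3, h4]
    exact Nat.cast_add_choose ℚ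
  have f1 : ((a + 1).factorial : ℚ) = ((a : ℚ) + 1) * (a.factorial : ℚ) := by
    rw [Nat.factorial_succ]
    push_cast
    ring
  have p1 : ((a + 1 + b).factorial : ℚ) ≠ 0 := by exact_mod_cast Nat.factorial_ne_zero _
  have p2 : (a.factorial : ℚ) ≠ 0 := by exact_mod_cast Nat.factorial_ne_zero _
  have p3 : (b.factorial : ℚ) ≠ 0 := by exact_mod_cast Nat.factorial_ne_zero _
  have p4 : ((2 * a + b + 2).factorial : ℚ) ≠ 0 := by exact_mod_cast Nat.factorial_ne_zero _
  have p5 : ((a : ℚ) + 1) ≠ 0 := by positivity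
  rw [h1, h2, f1]
  push_cast
  field_simp

theorem cc_diff (k j : ℕ) : cc (k + j + 1) k - cc (k + j) k =
    (-1) ^ j * 2 * (k.factorial : ℚ) ^ 2 * (j.factorial : ℚ) /
      (((k : ℚ) + j + 1) * ((2 * k + j + 1).factorial : ℚ)) := by
  induction k generalizing j with
  | zero =>
    rw [Nat.zero_add, cc_zero_right, cc_zero_right, Finset.sum_Icc_succ_top (by omega)]
    have f1 : ((j + 1).factorial : ℚ) = ((j : ℚ) + 1) * (j.factorial : ℚ) := by
      rw [Nat.factorial_succ]
      push_cast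
      ring
    have p2 : (j.factorial : ℚ) ≠ 0 := by exact_mod_cast Nat.factorial_ne_zero _
    have p5 : ((j : ℚ) + 1) ≠ 0 := by positivity
    rw [f1, Nat.factorial_zero]
    push_cast
    have hs : (-1 : ℚ) ^ (j + 1 + 1) = (-1) ^ j := by
      rw [pow_succ, pow_succ]
      ring
    rw [hs]
    field_simp
    ring
  | succ k ih =>
    have ih' := ih (j + 1)
    have e1 : k + 1 + j + 1 = k + (j + 1) + 1 := by ring
    have e2 : k + 1 + j = k + (j + 1) := by ring
    rw [cc_succ_right, cc_succ_right]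
    have a1 : ee (k + 1 + j + 1) (k + 1) =
        (-1) ^ j * ((k.factorial : ℚ) ^ 2 * ((j + 1).factorial : ℚ) /
          ((2 * k + (j + 1) + 2).factorial : ℚ)) := by
      have h := CDiff_ee k (j + 1)
      have e3 : k + 1 + (j + 1) = k + 1 + j + 1 := by ring
      rw [e3] at h
      rw [h]
      congr 1
      have e4 : k + 1 + j + 1 + (k + 1) + 1 = j + 2 * (k + 2) := by ring
      rw [e4, pow_add, pow_mul]
      norm_num
    have a2 : ee (k + 1 + j) (k + 1) =
        -((-1) ^ j * ((k.factorial : ℚ) ^ 2 * (j.factorial : ℚ) /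
          ((2 * k + j + 2).factorial : ℚ))) := by
      have h := CDiff_ee k j
      rw [h]
      have e4 : k + 1 + j + (k + 1) + 1 = j + 2 * (k + 1) + 1 := by ring
      rw [e4, pow_succ, pow_add, pow_mul]
      norm_num
    rw [a1, a2]
    have e5 : cc (k + 1 + j + 1) k + (-1) ^ j * ((k.factorial : ℚ) ^ 2 * ((j + 1).factorial : ℚ) /
          ((2 * k + (j + 1) + 2).factorial : ℚ)) - (cc (k + 1 + j) k +
          -((-1) ^ j * ((k.factorial : ℚ) ^ 2 * (j.factorial : ℚ) /
          ((2 * k + j + 2).factorial : ℚ)))) = (cc (k + (j + 1) + 1) k - cc (k + (j + 1)) k) +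
          ((-1) ^ j * ((k.factorial : ℚ) ^ 2 * ((j + 1).factorial : ℚ) /
          ((2 * k + (j + 1) + 2).factorial : ℚ)) + ((-1) ^ j * ((k.factorial : ℚ) ^ 2 *
          (j.factorial : ℚ) / ((2 * k + j + 2).factorial : ℚ)))) := by
      rw [e1, e2]
      ring
    rw [e5, ih']
    have f1 : ((j + 1).factorial : ℚ) = ((j : ℚ) + 1) * (j.factorial : ℚ) := by
      rw [Nat.factorial_succ]
      push_cast
      ring
    have f2 : ((2 * k + (j + 1) + 2).factorial : ℚ) =
        (2 * (k : ℚ) + j + 3) * ((2 * k + j + 2).factorial : ℚ) := by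
      have : 2 * k + (j + 1) + 2 = (2 * k + j + 2) + 1 := by ring
      rw [this, Nat.factorial_succ]
      push_cast
      ring
    have f3 : ((2 * (k + 1) + j + 1).factorial : ℚ) =
        (2 * (k : ℚ) + j + 3) * ((2 * k + j + 2).factorial : ℚ) := by
      have : 2 * (k + 1) + j + 1 = (2 * k + j + 2) + 1 := by ring
      rw [this, Nat.factorial_succ]
      push_cast
      ring
    have f4 : ((2 * k + (j + 1) + 1).factorial : ℚ) = ((2 * k + j + 2).factorial : ℚ) := by
      have : 2 * k + (j + 1) + 1 = 2 * k + j + 2 := by ring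
      rw [this]
    have f5 : ((k + 1).factorial : ℚ) = ((k : ℚ) + 1) * (k.factorial : ℚ) := by
      rw [Nat.factorial_succ]
      push_cast
      ring
    have p2 : (j.factorial : ℚ) ≠ 0 := by exact_mod_cast Nat.factorial_ne_zero _
    have p3 : (k.factorial : ℚ) ≠ 0 := by exact_mod_cast Nat.factorial_ne_zero _
    have p4 : ((2 * k + j + 2).factorial : ℚ) ≠ 0 := by exact_mod_cast Nat.factorial_ne_zero _
    have p5 : (2 * (k : ℚ) + j + 3) ≠ 0 := by positivity
    have p6 : ((k : ℚ) + (j + 1) + 1) ≠ 0 := by positivity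
    have p7 : ((k : ℚ) + 1 + j + 1) ≠ 0 := by positivity
    rw [f1, f2, f3, f4, f5]
    have hs : (-1 : ℚ) ^ (j + 1) = -((-1) ^ j) := by
      rw [pow_succ]
      ring
    rw [hs]
    push_cast
    field_simp
    ring

end Pool.Agent.H60.AP
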