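import Pool.Agent.H60.AP.RecA

/-!
# Caso: the Casoratian

PROOF.  `W n = aa (n+1) bb n - aa n bb (n+1)`; by the recurrences `(n+2)^2 W (n+1) = -(n+1)^2 W n`
(`linear_combination (bb (n+1)) * rec_aa n - (aa (n+1)) * rec_bb n`), and `W 0 = 5`.  So `W n = (-1)^n 5/(n+1)^2`.
About 25 lines.
-/

set_option autoImplicit false

namespace Pool.Agent.H60.AP

theorem casoratian (n : ℕ) : aa (n + 1) * bb n - aa n * bb (n + 1) = (-1) ^ n * 5 / ((n : ℚ) + 1) ^ 2 := by
  induction n with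
  | zero => simp [aa_zero, aa_one, bb_zero]
  | succ n ih =>
    have h1 : ((n : ℚ) + 1) ^ 2 ≠ 0 := by positivity
    have h2 : ((n : ℚ) + 2) ^ 2 ≠ 0 := by positivity
    rw [eq_div_iff h1] at ih
    have h3 : ((n : ℚ) + 2) ^ 2 * (aa (n + 2) * bb (n + 1) - aa (n + 1) * bb (n + 2)) =
        (-1) ^ (n + 1) * 5 := by
      rw [pow_succ]
      linear_combination (bb (n + 1)) * rec_aa n - (aa (n + 1)) * rec_bb n - ih
    have h4 : ((n + 1 : ℕ) : ℚ) + 1 = (n : ℚ) + 2 := by push_cast; ring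
    rw [h4, eq_div_iff h2]
    linear_combination h3

end Pool.Agent.H60.AP
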