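import Pool.Agent.H60.AP.Defs

/-!
# Conv: `aa n / bb n → π²/6`

PROOF.  (1) `S n := 2 ∑_{m=1}^n (-1)^(m+1)/m^2 → π²/6`: the series `∑ (-1)^(m+1)/m^2` is absolutely summable
(`Real.summable_one_div_nat_pow`), `∑ 1/m^2 = π²/6` (`hasSum_zeta_two`), the even terms `∑ 1/(2m)^2 = (1/4) π²/6`, so
`∑ (-1)^(m+1)/m^2 = ∑ 1/m^2 - 2 ∑_(m even) 1/m^2 = (1/2) π²/6` (`HasSum.even_add_odd` or: `∑ (1 + (-1)^m)/m^2 = ∑_m 2/(2m)^2`).
(2) for `1 ≤ m ≤ n`: `C(n,m) ≥ 1`, `C(n+m,m) ≥ n + 1` (`C(n+m,m) = C(n+m,n)`, monotone in `m`, `C(n+1,n) = n+1`), so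
`|ee n m| ≤ 1/(m^2 (n+1))` and for `k ≤ n` `|cc n k - S n| ≤ (1/(n+1)) ∑_{m ≤ k} 1/m^2 ≤ 2/(n+1)`
(`∑_{m=1}^k 1/m^2 ≤ 2 - 1/k`, induction, or bound each `1/m^2 ≤ 1` in a cheaper way: `C(n+m,m) ≥ C(n+m, ...)`; any bound
tending to `0` is fine, e.g. use the total sum `π²/6`).
(3) `aa n - bb n * S n = ∑ lam n k (cc n k - S n)`, so `|aa n / bb n - S n| ≤ 2/(n+1)`.  About 100 lines.
-/

set_option autoImplicit false

namespace Pool.Agent.H60.AP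

private theorem Conv_ee {n m : ℕ} (h1 : 1 ≤ m) (h2 : m ≤ n) :
    |ee n m| ≤ 1 / (m : ℚ) ^ 2 / ((n : ℚ) + 1) := by
  have hm : (0 : ℚ) < (m : ℚ) := by exact_mod_cast h1
  have hc : (1 : ℚ) ≤ (n.choose m : ℚ) := by exact_mod_cast Nat.choose_pos h2
  have hd : ((n : ℚ) + 1) ≤ ((n + m).choose m : ℚ) := by
    have h3 : (n + 1).choose n ≤ (n + m).choose n := Nat.choose_le_choose n (by omega)
    have h4 : (n + m).choose n = (n + m).choose m := Nat.choose_symm_add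
    rw [h4, Nat.choose_succ_self_right] at h3
    exact_mod_cast h3
  unfold ee
  rw [abs_div, abs_pow, abs_neg, abs_one, one_pow, div_div]
  have h5 : (0 : ℚ) < (m : ℚ) ^ 2 * ((n : ℚ) + 1) := by positivity
  refine one_div_le_one_div_of_le h5 ?_
  rw [abs_of_nonneg (by positivity)]
  have h6 : (0 : ℚ) < (m : ℚ) ^ 2 := by positivity
  calc (m : ℚ) ^ 2 * ((n : ℚ) + 1) ≤ (m : ℚ) ^ 2 * ((n + m).choose m : ℚ) :=
        mul_le_mul_of_nonneg_left hd h6.le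
    _ ≤ (m : ℚ) ^ 2 * (n.choose m : ℚ) * ((n + m).choose m : ℚ) :=
        mul_le_mul_of_nonneg_right (le_mul_of_one_le_right h6.le hc) (by positivity)

private theorem Conv_cc {n k : ℕ} (h : k ≤ n) :
    |cc n k - 2 * ∑ m ∈ Finset.Icc 1 n, (-1) ^ (m + 1) / (m : ℚ) ^ 2|
      ≤ (∑ m ∈ Finset.Icc 1 n, 1 / (m : ℚ) ^ 2) / ((n : ℚ) + 1) := by
  have h1 : cc n k - 2 * ∑ m ∈ Finset.Icc 1 n, (-1) ^ (m + 1) / (m : ℚ) ^ 2
      = ∑ m ∈ Finset.Icc 1 k, ee n m := by unfold cc; ring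
  rw [h1]
  refine (Finset.abs_sum_le_sum_abs _ _).trans ?_
  rw [Finset.sum_div]
  refine (Finset.sum_le_sum fun m hm => Conv_ee (Finset.mem_Icc.1 hm).1
    ((Finset.mem_Icc.1 hm).2.trans h)).trans ?_
  refine Finset.sum_le_sum_of_subset_of_nonneg (Finset.Icc_subset_Icc le_rfl h) ?_
  intro m _ _
  positivity

private theorem Conv_ab (n : ℕ) :
    |aa n / bb n - 2 * ∑ m ∈ Finset.Icc 1 n, (-1) ^ (m + 1) / (m : ℚ) ^ 2|
      ≤ (∑ m ∈ Finset.Icc 1 n, 1 / (m : ℚ) ^ 2) / ((n : ℚ) + 1) := by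
  set S : ℚ := 2 * ∑ m ∈ Finset.Icc 1 n, (-1) ^ (m + 1) / (m : ℚ) ^ 2 with hS
  set C : ℚ := (∑ m ∈ Finset.Icc 1 n, 1 / (m : ℚ) ^ 2) / ((n : ℚ) + 1) with hC
  have hb : 0 < bb n := lt_of_lt_of_le one_pos (one_le_bb n)
  have h1 : aa n / bb n - S = (aa n - bb n * S) / bb n := by
    field_simp
  rw [h1, abs_div, abs_of_pos hb, div_le_iff₀ hb]
  have h2 : aa n - bb n * S = ∑ k ∈ Finset.range (n + 1), lam n k * (cc n k - S) := by
    unfold aa bb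
    rw [Finset.sum_mul, ← Finset.sum_sub_distrib]
    exact Finset.sum_congr rfl fun k _ => by ring
  rw [h2]
  refine (Finset.abs_sum_le_sum_abs _ _).trans ?_
  unfold bb
  rw [Finset.mul_sum]
  refine Finset.sum_le_sum fun k hk => ?_
  rw [abs_mul, abs_of_nonneg (lam_nonneg n k), mul_comm C]
  exact mul_le_mul_of_nonneg_left (Conv_cc (by rw [Finset.mem_range] at hk; omega)) (lam_nonneg n k)

private theorem Conv_S : Filter.Tendsto (fun n : ℕ => 2 * ∑ m ∈ Finset.Icc 1 n, (-1 : ℝ) ^ (m + 1) / (m : ℝ) ^ 2)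
    Filter.atTop (nhds (Real.pi ^ 2 / 6)) := by
  have hg := hasSum_zeta_two
  have he : HasSum (fun k : ℕ => (1 : ℝ) / ((2 * k : ℕ) : ℝ) ^ 2) (Real.pi ^ 2 / 24) := by
    have h1 := hg.mul_left (1 / 4)
    have h2 : (fun k : ℕ => (1 : ℝ) / ((2 * k : ℕ) : ℝ) ^ 2) = fun k : ℕ => 1 / 4 * (1 / (k : ℝ) ^ 2) := by
      funext k
      push_cast
      rw [mul_pow, one_div, one_div, mul_inv]
      norm_num
    rw [h2]
    have h7 : (1 : ℝ) / 4 * (Real.pi ^ 2 / 6) = Real.pi ^ 2 / 24 := by ring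
    rw [← h7]
    exact h1
  have ho : Summable fun k : ℕ => (1 : ℝ) / ((2 * k + 1 : ℕ) : ℝ) ^ 2 :=
    hg.summable.comp_injective (i := fun k : ℕ => 2 * k + 1) fun a b h => by
      have : 2 * a + 1 = 2 * b + 1 := h
      omega
  obtain ⟨O, hO⟩ := ho
  have h3 : Real.pi ^ 2 / 24 + O = Real.pi ^ 2 / 6 :=
    (HasSum.even_add_odd (f := fun n : ℕ => (1 : ℝ) / (n : ℝ) ^ 2) he hO).unique hg
  have h4 : HasSum (fun m : ℕ => (-1 : ℝ) ^ (m + 1) / (m : ℝ) ^ 2) (-(Real.pi ^ 2 / 24) + O) := by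
    refine HasSum.even_add_odd ?_ ?_
    · have h5 : (fun k : ℕ => (-1 : ℝ) ^ (2 * k + 1) / ((2 * k : ℕ) : ℝ) ^ 2)
          = fun k : ℕ => -(1 / ((2 * k : ℕ) : ℝ) ^ 2) := by
        funext k
        have h6 : (-1 : ℝ) ^ (2 * k + 1) = -1 := by rw [pow_succ, pow_mul]; norm_num
        rw [h6, neg_div]
      rw [h5]
      exact he.neg
    · have h5 : (fun k : ℕ => (-1 : ℝ) ^ (2 * k + 1 + 1) / ((2 * k + 1 : ℕ) : ℝ) ^ 2)
          = fun k : ℕ => 1 / ((2 * k + 1 : ℕ) : ℝ) ^ 2 := by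
        funext k
        have h6 : (-1 : ℝ) ^ (2 * k + 1 + 1) = 1 := by
          rw [show 2 * k + 1 + 1 = 2 * (k + 1) by ring, pow_mul]; norm_num
        rw [h6]
      rw [h5]
      exact hO
  have h5 := (h4.tendsto_sum_nat.comp (Filter.tendsto_add_atTop_nat 1)).const_mul 2
  have h6 : 2 * (-(Real.pi ^ 2 / 24) + O) = Real.pi ^ 2 / 6 := by linarith
  rw [h6] at h5
  refine h5.congr fun n => ?_
  simp only [Function.comp]
  congr 1
  induction n with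
  | zero => simp
  | succ n ih => rw [Finset.sum_range_succ, ih, Finset.sum_Icc_succ_top (by omega)]

theorem conv : Filter.Tendsto (fun n : ℕ => (aa n : ℝ) / (bb n : ℝ)) Filter.atTop (nhds (Real.pi ^ 2 / 6)) := by
  have h1 : ∀ n : ℕ, |(aa n : ℝ) / (bb n : ℝ) - 2 * ∑ m ∈ Finset.Icc 1 n, (-1 : ℝ) ^ (m + 1) / (m : ℝ) ^ 2|
      ≤ (Real.pi ^ 2 / 6) / ((n : ℝ) + 1) := by
    intro n
    have h2 : ((|aa n / bb n - 2 * ∑ m ∈ Finset.Icc 1 n, (-1) ^ (m + 1) / (m : ℚ) ^ 2| : ℚ) : ℝ)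
        ≤ (((∑ m ∈ Finset.Icc 1 n, 1 / (m : ℚ) ^ 2) / ((n : ℚ) + 1) : ℚ) : ℝ) := by
      exact_mod_cast Conv_ab n
    push_cast at h2
    refine h2.trans ?_
    refine div_le_div_of_nonneg_right ?_ (by positivity)
    exact sum_le_hasSum _ (fun m _ => by positivity) hasSum_zeta_two
  have h2 : Filter.Tendsto (fun n : ℕ => (Real.pi ^ 2 / 6) / ((n : ℝ) + 1)) Filter.atTop (nhds 0) :=
    Filter.Tendsto.div_atTop tendsto_const_nhds
      (Filter.tendsto_atTop_add_const_right _ _ tendsto_natCast_atTop_atTop)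
  have h3 := squeeze_zero_norm (fun n => by rw [Real.norm_eq_abs]; exact h1 n) h2
  have h4 := h3.add Conv_S
  rw [zero_add] at h4
  refine h4.congr fun n => ?_
  ring

end Pool.Agent.H60.AP
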