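import Mathlib

/-!
# Crit: the standard lemma on irrationality measures

PROOF.  Let `q ≥ 1`, `p` be given.  Let `n` be the least natural number with `C2 * q * 2 ≤ B ^ n`... (exists since `B > 1`;
`n = 0` possible).  Then for `j = n` and `j = n + 1`: `q |Q j α - P j| ≤ q C2 B^(-j) ≤ 1/2`.  As `Q n P (n+1) ≠ Q (n+1) P n`,
not both `p Q j = q P j` (`j = n, n+1`): if both held, then `q (Q n P (n+1) - Q (n+1) P n) = p Q n Q (n+1) - p Q (n+1) Q n = 0`.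
Take `j` with `p Q j - q P j ≠ 0`; it is an integer so `1 ≤ |p Q j - q P j| ≤ |Q j| |p - q α| + q |Q j α - P j| ≤ C1 A^j |p - q α| + 1/2`,
so `|q α - p| ≥ 1/(2 C1 A^(n+1))`.  If `n ≥ 1`, minimality gives `B^(n-1) < 2 C2 q`, so
`A^(n+1) = A^2 A^(n-1) ≤ A^2 (B^κ)^(n-1) = A^2 (B^(n-1))^κ ≤ A^2 (2 C2 q)^κ`; if `n = 0`, `A^(n+1) = A ≤ A^2 q^κ`.
So `C = 1/(2 C1 A^2 (max 1 (2 C2))^κ)` works.  About 70 lines.
-/

set_option autoImplicit false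

namespace Pool.Agent.H60.AP

theorem crit (α A B C1 C2 : ℝ) (κ : ℕ) (P Q : ℕ → ℤ) (hA : 1 < A) (hB : 1 < B) (hC1 : 0 < C1) (hC2 : 0 < C2)
    (hAB : A ≤ B ^ κ) (hQ : ∀ n, |(Q n : ℝ)| ≤ C1 * A ^ n)
    (hE : ∀ n, |(Q n : ℝ) * α - P n| ≤ C2 / B ^ n)
    (hne : ∀ n, Q n * P (n + 1) ≠ Q (n + 1) * P n) :
    ∃ C : ℝ, 0 < C ∧ ∀ (p : ℤ) (q : ℕ), 1 ≤ q → C / (q : ℝ) ^ κ ≤ |(q : ℝ) * α - p| := by
  set D : ℝ := max 1 (2 * C2) with hD
  have hD1 : 1 ≤ D := le_max_left _ _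
  have hD2 : 2 * C2 ≤ D := le_max_right _ _
  have hA0 : 0 < A := by linarith
  have hB0 : 0 < B := by linarith
  have hDk : 0 < D ^ κ := pow_pos (by linarith) κ
  refine ⟨1 / (2 * C1 * A ^ 2 * D ^ κ), by positivity, fun p q hq => ?_⟩
  have hq1 : (1 : ℝ) ≤ (q : ℝ) := by exact_mod_cast hq
  have hq0 : (0 : ℝ) < (q : ℝ) := by linarith
  have hex : ∃ n : ℕ, 2 * C2 * (q : ℝ) ≤ B ^ n := by
    obtain ⟨n, hn⟩ := pow_unbounded_of_one_lt (2 * C2 * (q : ℝ)) hB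
    exact ⟨n, hn.le⟩
  classical
  obtain ⟨n, hn, hmin⟩ : ∃ n : ℕ, 2 * C2 * (q : ℝ) ≤ B ^ n ∧ ∀ m < n, B ^ m < 2 * C2 * (q : ℝ) := by
    refine ⟨Nat.find hex, Nat.find_spec hex, fun m hm => ?_⟩
    exact lt_of_not_ge (Nat.find_min hex hm)
  have hqpow : (1 : ℝ) ≤ (q : ℝ) ^ κ := one_le_pow₀ hq1
  have hDpow : (1 : ℝ) ≤ D ^ κ := one_le_pow₀ hD1
  have hAn : A ^ (n + 1) ≤ A ^ 2 * (D ^ κ * (q : ℝ) ^ κ) := by
    rcases Nat.eq_zero_or_pos n with h0 | h0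
    · subst h0
      have h1 : A ^ (0 + 1) ≤ A ^ 2 := pow_le_pow_right₀ hA.le (by norm_num)
      have h2 : (1 : ℝ) ≤ D ^ κ * (q : ℝ) ^ κ := one_le_mul_of_one_le_of_one_le hDpow hqpow
      calc A ^ (0 + 1) ≤ A ^ 2 := h1
        _ = A ^ 2 * 1 := (mul_one _).symm
        _ ≤ A ^ 2 * (D ^ κ * (q : ℝ) ^ κ) := mul_le_mul_of_nonneg_left h2 (by positivity)
    · obtain ⟨m, rfl⟩ : ∃ m, n = m + 1 := ⟨n - 1, by omega⟩
      have h1 : B ^ m < 2 * C2 * (q : ℝ) := hmin m (by omega)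
      have h2 : B ^ m ≤ D * q := h1.le.trans (mul_le_mul_of_nonneg_right hD2 hq0.le)
      have h3 : A ^ m ≤ (D * q) ^ κ := by
        calc A ^ m ≤ (B ^ κ) ^ m := pow_le_pow_left₀ hA0.le hAB m
          _ = (B ^ m) ^ κ := by rw [← pow_mul, ← pow_mul, mul_comm]
          _ ≤ (D * q) ^ κ := pow_le_pow_left₀ (by positivity) h2 κ
      calc A ^ (m + 1 + 1) = A ^ 2 * A ^ m := by ring
        _ ≤ A ^ 2 * (D * q) ^ κ := mul_le_mul_of_nonneg_left h3 (by positivity)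
        _ = A ^ 2 * (D ^ κ * (q : ℝ) ^ κ) := by rw [mul_pow]
  have main : ∀ j : ℕ, n ≤ j → j ≤ n + 1 → p * Q j - q * P j ≠ 0 →
      1 / (2 * C1 * A ^ 2 * D ^ κ) / (q : ℝ) ^ κ ≤ |(q : ℝ) * α - p| := by
    intro j hj1 hj2 hne0
    have h1 : (1 : ℝ) ≤ |(p : ℝ) * Q j - q * P j| := by
      have := Int.one_le_abs hne0
      have h : ((1 : ℤ) : ℝ) ≤ ((|p * Q j - q * P j| : ℤ) : ℝ) := by exact_mod_cast this
      push_cast at h
      exact h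
    have h2 : (p : ℝ) * Q j - q * P j = -(Q j * ((q : ℝ) * α - p)) + q * (Q j * α - P j) := by ring
    have h3 : |(p : ℝ) * Q j - q * P j| ≤ |(Q j : ℝ)| * |(q : ℝ) * α - p| +
        q * |(Q j : ℝ) * α - P j| := by
      rw [h2]
      refine (abs_add_le _ _).trans ?_
      rw [abs_neg, abs_mul, abs_mul, abs_of_pos hq0]
    have h4 : (q : ℝ) * |(Q j : ℝ) * α - P j| ≤ 1 / 2 := by
      have h5 : |(Q j : ℝ) * α - P j| ≤ C2 / B ^ n :=
        (hE j).trans (div_le_div_of_nonneg_left hC2.le (by positivity)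
          (pow_le_pow_right₀ hB.le hj1))
      calc (q : ℝ) * |(Q j : ℝ) * α - P j| ≤ q * (C2 / B ^ n) :=
            mul_le_mul_of_nonneg_left h5 hq0.le
        _ = (q * C2) / B ^ n := by ring
        _ ≤ 1 / 2 := by
            rw [div_le_div_iff₀ (by positivity) (by norm_num)]
            linarith
    have h6 : |(Q j : ℝ)| ≤ C1 * A ^ (n + 1) :=
      (hQ j).trans (mul_le_mul_of_nonneg_left (pow_le_pow_right₀ hA.le hj2) hC1.le)
    have h7 : |(Q j : ℝ)| ≤ C1 * (A ^ 2 * (D ^ κ * (q : ℝ) ^ κ)) :=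
      h6.trans (mul_le_mul_of_nonneg_left hAn hC1.le)
    have h8 : |(Q j : ℝ)| * |(q : ℝ) * α - p| ≤
        C1 * (A ^ 2 * (D ^ κ * (q : ℝ) ^ κ)) * |(q : ℝ) * α - p| :=
      mul_le_mul_of_nonneg_right h7 (abs_nonneg _)
    have h9 : (1 : ℝ) / 2 ≤ C1 * (A ^ 2 * (D ^ κ * (q : ℝ) ^ κ)) * |(q : ℝ) * α - p| := by
      linarith
    rw [div_div, div_le_iff₀ (by positivity)]
    nlinarith [h9]
  by_cases c1 : p * Q n - q * P n = 0
  · refine main (n + 1) (by omega) le_rfl ?_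
    intro c2
    have h1 : (q : ℤ) * (Q n * P (n + 1) - Q (n + 1) * P n) = 0 := by
      linear_combination (Q (n + 1)) * c1 - (Q n) * c2
    rcases mul_eq_zero.mp h1 with h | h
    · have : q = 0 := by exact_mod_cast h
      omega
    · exact hne n (by linarith)
  · exact main n le_rfl (by omega) c1

end Pool.Agent.H60.AP
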