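import Mathlib

/-!
# Apery's approximations to `ζ(2)`: definitions

`lam n k = C(n,k)^2 C(n+k,k)`, `cc n k = 2 ∑_{m=1}^n (-1)^(m+1)/m^2 + ∑_{m=1}^k (-1)^(n+m+1)/(m^2 C(n,m) C(n+m,m))`,
`bb n = ∑_k lam n k` (1, 3, 19, 147, ...), `aa n = ∑_k lam n k * cc n k` (0, 5, 125/4, 8705/36, ...).
All over `ℚ`.  Terms with `m > n` in `cc` are `0` by the convention `x / 0 = 0`.
-/

set_option autoImplicit false

namespace Pool.Agent.H60.AP

open Finset

/-- `C(n,k)^2 C(n+k,k)`. -/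
def lam (n k : ℕ) : ℚ := (n.choose k : ℚ) ^ 2 * ((n + k).choose k : ℚ)

/-- the single term of the second sum of `cc` -/
def ee (n m : ℕ) : ℚ := (-1) ^ (n + m + 1) / ((m : ℚ) ^ 2 * (n.choose m : ℚ) * ((n + m).choose m : ℚ))

/-- Apery's `c_{n,k}` for `ζ(2)`. -/
def cc (n k : ℕ) : ℚ := 2 * ∑ m ∈ Icc 1 n, (-1) ^ (m + 1) / (m : ℚ) ^ 2 + ∑ m ∈ Icc 1 k, ee n m

/-- the denominators `1, 3, 19, 147, ...` -/
def bb (n : ℕ) : ℚ := ∑ k ∈ range (n + 1), lam n k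

/-- the numerators `0, 5, 125/4, ...` -/
def aa (n : ℕ) : ℚ := ∑ k ∈ range (n + 1), lam n k * cc n k

/-- Certificate for the recurrence of `bb`. -/
def BB (n k : ℕ) : ℚ := ((k : ℚ) ^ 2 + 3 * (2 * n + 1) * k - 11 * n ^ 2 - 9 * n - 2) * lam n k

theorem lam_zero_right (n : ℕ) : lam n 0 = 1 := by simp [lam]

theorem lam_of_lt {n k : ℕ} (h : n < k) : lam n k = 0 := by
  simp [lam, Nat.choose_eq_zero_of_lt h]

theorem lam_nonneg (n k : ℕ) : 0 ≤ lam n k := by unfold lam; positivity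

theorem cc_zero_right (n : ℕ) : cc n 0 = 2 * ∑ m ∈ Icc 1 n, (-1) ^ (m + 1) / (m : ℚ) ^ 2 := by
  simp [cc]

theorem cc_succ_right (n k : ℕ) : cc n (k + 1) = cc n k + ee n (k + 1) := by
  unfold cc
  rw [Finset.sum_Icc_succ_top (by omega)]
  ring

theorem bb_zero : bb 0 = 1 := by simp [bb, lam]

theorem bb_one : bb 1 = 3 := by simp [bb, lam, Finset.sum_range_succ]; norm_num

theorem aa_zero : aa 0 = 0 := by simp [aa, lam, cc]

theorem aa_one : aa 1 = 5 := by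
  simp [aa, lam, cc, ee, Finset.sum_range_succ]
  norm_num

theorem one_le_bb (n : ℕ) : 1 ≤ bb n := by
  unfold bb
  calc (1 : ℚ) = lam n 0 := (lam_zero_right n).symm
    _ ≤ _ := Finset.single_le_sum (fun k _ => lam_nonneg n k) (by simp)

end Pool.Agent.H60.AP
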