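import Pool.Agent.H60.AP.RecB

/-!
# Growth: the growth of `bb`

PROOF.  Let `r_n = bb (n+1)/bb n`.  By `rec_bb`: `r_(n+1) = 11 - (11 n + 19)/(n+2)^2 + ((n+1)/(n+2))^2 / r_n`
(`(11 (n+1)^2 + 11 (n+1) + 3) = 11 (n+2)^2 - 11 (n+1) - 8`).
`ratio`: `3 bb n ≤ bb (n+1) ≤ 12 bb n` for all `n`: induction, `r_0 = 3`; upper: `r_(n+1) ≤ 11 + 1/3`; lower:
`(11 n + 19)/(n+2)^2 ≤ 19/4`, so `r_(n+1) ≥ 11 - 19/4 ≥ 3`.
`growth_low`: for `n ≥ 4000`: `r_(n+1) ≥ 11 - (11n+19)/(n+2)^2 + ((n+1)/(n+2))^2/12 ≥ 11.08` since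
`(11n+19)/(n+2)^2 ≤ 11/(n+2)... ≤ .00275`, `((n+1)/(n+2))^2 ≥ 1 - 2/(n+2) ≥ .9995`, `.9995/12 ≥ .08329`.
`growth_up`: for `n ≥ 4001`: `r_(n+1) ≤ 11 + 1/r_n ≤ 11 + 1/11.08 ≤ 11.091`.
From this `bb_bounds`: constants `c, C > 0` (ratios at the index 4002; for smaller `n` use `1 ≤ bb n`, finitely many values:
or simply `bb n ≤ 12^4002 * 11.091^n` by `ratio` below the index and induction above, and
`bb n ≥ (1/11.08)^4002 * 11.08^n` below the index because `bb n ≥ 1`, induction above).  About 90 lines.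
-/

set_option autoImplicit false

namespace Pool.Agent.H60.AP

private theorem Growth_pos (n : ℕ) : 0 < bb n := lt_of_lt_of_le one_pos (one_le_bb n)

private theorem Growth_lo (n : ℕ) {x y : ℚ} (h : x * bb (n + 1) ≤ bb n)
    (hq : y * ((n : ℚ) + 2) ^ 2 ≤
      11 * ((n : ℚ) + 1) ^ 2 + 11 * ((n : ℚ) + 1) + 3 + x * ((n : ℚ) + 1) ^ 2) :
    y * bb (n + 1) ≤ bb (n + 2) := by
  have hsq : (0 : ℚ) < ((n : ℚ) + 2) ^ 2 := by positivity
  refine le_of_mul_le_mul_left ?_ hsq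
  rw [rec_bb n]
  have h1 := mul_le_mul_of_nonneg_right hq (Growth_pos (n + 1)).le
  have h2 := mul_le_mul_of_nonneg_left h (sq_nonneg ((n : ℚ) + 1))
  linarith

private theorem Growth_up (n : ℕ) {x y : ℚ} (h : bb n ≤ x * bb (n + 1))
    (hq : 11 * ((n : ℚ) + 1) ^ 2 + 11 * ((n : ℚ) + 1) + 3 + x * ((n : ℚ) + 1) ^ 2 ≤
      y * ((n : ℚ) + 2) ^ 2) :
    bb (n + 2) ≤ y * bb (n + 1) := by
  have hsq : (0 : ℚ) < ((n : ℚ) + 2) ^ 2 := by positivity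
  refine le_of_mul_le_mul_left ?_ hsq
  rw [rec_bb n]
  have h1 := mul_le_mul_of_nonneg_right hq (Growth_pos (n + 1)).le
  have h2 := mul_le_mul_of_nonneg_left h (sq_nonneg ((n : ℚ) + 1))
  linarith

theorem ratio (n : ℕ) : 3 * bb n ≤ bb (n + 1) ∧ bb (n + 1) ≤ 12 * bb n := by
  induction n with
  | zero =>
    have h0 := bb_zero
    have h1 := bb_one
    simp only [Nat.zero_add]
    rw [h0, h1]
    norm_num
  | succ n ih =>
    obtain ⟨h1, h2⟩ := ih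
    have hn : (0 : ℚ) ≤ n := Nat.cast_nonneg n
    have hp := Growth_pos n
    constructor
    · refine Growth_lo n (x := 0) (y := 3) (by linarith) ?_
      nlinarith [sq_nonneg (n : ℚ)]
    · refine Growth_up n (x := 1 / 3) (y := 12) (by linarith) ?_
      nlinarith [sq_nonneg (n : ℚ)]

private theorem Growth_low (n : ℕ) (hn : 4001 ≤ n) : 1108 / 100 * bb n ≤ bb (n + 1) := by
  obtain ⟨k, rfl⟩ : ∃ k, n = k + 1 := ⟨n - 1, by omega⟩
  have hk : (4000 : ℚ) ≤ k := by exact_mod_cast (by omega : 4000 ≤ k)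
  clear hn
  have h : (1 / 12 : ℚ) * bb (k + 1) ≤ bb k := by
    have h0 := (ratio k).2
    linarith
  have h2 : (1108 / 100 : ℚ) * ((k : ℚ) + 2) ^ 2 ≤
      11 * ((k : ℚ) + 1) ^ 2 + 11 * ((k : ℚ) + 1) + 3 + 1 / 12 * ((k : ℚ) + 1) ^ 2 := by
    nlinarith [mul_nonneg (sub_nonneg.2 hk) (sub_nonneg.2 hk)]
  exact Growth_lo k h h2

private theorem Growth_upp (n : ℕ) (hn : 4002 ≤ n) : bb (n + 1) ≤ 11091 / 1000 * bb n := by
  obtain ⟨k, rfl⟩ : ∃ k, n = k + 1 := ⟨n - 1, by omega⟩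
  have hk : (0 : ℚ) ≤ k := Nat.cast_nonneg k
  have h0 := Growth_low k (by omega)
  clear hn
  have h : bb k ≤ (100 / 1108 : ℚ) * bb (k + 1) := by linarith
  have h2 : 11 * ((k : ℚ) + 1) ^ 2 + 11 * ((k : ℚ) + 1) + 3 + 100 / 1108 * ((k : ℚ) + 1) ^ 2 ≤
      (11091 / 1000 : ℚ) * ((k : ℚ) + 2) ^ 2 := by
    nlinarith [sq_nonneg (k : ℚ)]
  exact Growth_up k h h2

theorem bb_bounds : ∃ c C : ℝ, 0 < c ∧ 0 < C ∧ ∀ n : ℕ,
    c * (11.08 : ℝ) ^ n ≤ (bb n : ℝ) ∧ (bb n : ℝ) ≤ C * (11.091 : ℝ) ^ n := by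
  obtain ⟨K, hK⟩ : ∃ K : ℕ, K = 4002 := ⟨_, rfl⟩
  have hone : ∀ n : ℕ, (1 : ℝ) ≤ (bb n : ℝ) := fun n => by exact_mod_cast one_le_bb n
  have hlow : ∀ n : ℕ, K ≤ n → (11.08 : ℝ) * (bb n : ℝ) ≤ (bb (n + 1) : ℝ) := by
    intro n hn
    have h := Growth_low n (by omega)
    have h2 : ((1108 / 100 * bb n : ℚ) : ℝ) ≤ ((bb (n + 1) : ℚ) : ℝ) := by exact_mod_cast h
    push_cast at h2
    linarith
  have hupp : ∀ n : ℕ, K ≤ n → (bb (n + 1) : ℝ) ≤ (11.091 : ℝ) * (bb n : ℝ) := by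
    intro n hn
    have h := Growth_upp n (by omega)
    have h2 : ((bb (n + 1) : ℚ) : ℝ) ≤ ((11091 / 1000 * bb n : ℚ) : ℝ) := by exact_mod_cast h
    push_cast at h2
    linarith
  have h12 : ∀ n : ℕ, (bb n : ℝ) ≤ 12 ^ n := by
    intro n
    induction n with
    | zero => rw [bb_zero]; simp
    | succ n ih =>
      have h := (ratio n).2
      have h2 : ((bb (n + 1) : ℚ) : ℝ) ≤ ((12 * bb n : ℚ) : ℝ) := by exact_mod_cast h
      push_cast at h2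
      rw [pow_succ]
      linarith
  have hc0 : (0 : ℝ) < 11.08 := by norm_num
  have hC0 : (1 : ℝ) ≤ 11.091 := by norm_num
  refine ⟨((11.08 : ℝ) ^ K)⁻¹, 12 ^ K, inv_pos.2 (pow_pos hc0 K), pow_pos (by norm_num) K,
    fun n => ?_⟩
  rcases le_total n K with hn | hn
  · constructor
    · have h1 : (11.08 : ℝ) ^ n ≤ (11.08 : ℝ) ^ K := pow_le_pow_right₀ (by norm_num) hn
      have h2 : ((11.08 : ℝ) ^ K)⁻¹ * (11.08 : ℝ) ^ n ≤ ((11.08 : ℝ) ^ K)⁻¹ * (11.08 : ℝ) ^ K :=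
        mul_le_mul_of_nonneg_left h1 (inv_pos.2 (pow_pos hc0 K)).le
      rw [inv_mul_cancel₀ (pow_pos hc0 K).ne'] at h2
      exact h2.trans (hone n)
    · have h1 : (12 : ℝ) ^ n ≤ 12 ^ K := pow_le_pow_right₀ (by norm_num) hn
      have h2 : (1 : ℝ) ≤ (11.091 : ℝ) ^ n := one_le_pow₀ hC0
      have h3 : (12 : ℝ) ^ K * 1 ≤ 12 ^ K * (11.091 : ℝ) ^ n :=
        mul_le_mul_of_nonneg_left h2 (by positivity)
      have h4 := h12 n
      linarith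
  · induction n, hn using Nat.le_induction with
    | base =>
      constructor
      · rw [inv_mul_cancel₀ (pow_pos hc0 K).ne']
        exact hone K
      · have h2 : (1 : ℝ) ≤ (11.091 : ℝ) ^ K := one_le_pow₀ hC0
        have h3 : (12 : ℝ) ^ K * 1 ≤ 12 ^ K * (11.091 : ℝ) ^ K :=
          mul_le_mul_of_nonneg_left h2 (by positivity)
        have h4 := h12 K
        linarith
    | succ n hn ih =>
      obtain ⟨h1, h2⟩ := ih
      have h3 := hlow n hn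
      have h4 := hupp n hn
      constructor
      · rw [pow_succ (11.08 : ℝ) n, ← mul_assoc]
        linarith [mul_le_mul_of_nonneg_right h1 hc0.le]
      · rw [pow_succ (11.091 : ℝ) n, ← mul_assoc]
        linarith [mul_le_mul_of_nonneg_right h2 (zero_le_one.trans hC0)]

end Pool.Agent.H60.AP
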