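import Pool.Agent.H60.AP.Caso
import Pool.Agent.H60.AP.Growth
import Pool.Agent.H60.AP.Conv

/-!
# Err: the linear form `bb n ζ(2) - aa n`

PROOF.  `x n = aa n/bb n`.  `x (n+1) - x n = (-1)^n 5/((n+1)^2 bb n bb (n+1))` (`casoratian`), so
`|x (j+1) - x j| ≤ 5/(bb j bb (j+1))` and `bb (j+1) ≥ 3 bb j` (`ratio`): for `j = n + i`: `bb j bb (j+1) ≥ 9^i bb n bb (n+1)`.
So for all `i`: `|x (n+i) - x n| ≤ ∑_{l<i} 5/(9^l bb n bb (n+1)) ≤ 6/(bb n bb (n+1))` (induction with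
`(45/8)(1 - 9^(-i))`), and in the limit (`conv`, `le_of_tendsto'`) `|π²/6 - x n| ≤ 6/(bb n bb (n+1))`.  Multiply by `bb n`.
About 50 lines.
-/

set_option autoImplicit false

namespace Pool.Agent.H60.AP

private theorem Err_pos (n : ℕ) : (0 : ℝ) < (bb n : ℝ) := by
  have h := one_le_bb n
  have h1 : (0 : ℚ) < bb n := lt_of_lt_of_le one_pos h
  exact_mod_cast h1

private theorem Err_ratio (n : ℕ) : 3 * (bb n : ℝ) ≤ (bb (n + 1) : ℝ) := by
  have h := (ratio n).1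
  exact_mod_cast h

private theorem Err_pow (n i : ℕ) : 3 ^ i * (bb n : ℝ) ≤ (bb (n + i) : ℝ) := by
  induction i with
  | zero => simp
  | succ i ih =>
    have h := Err_ratio (n + i)
    have h2 : n + (i + 1) = n + i + 1 := rfl
    rw [h2, pow_succ]
    linarith

private theorem Err_step (j : ℕ) : |(aa (j + 1) : ℝ) / (bb (j + 1) : ℝ) - (aa j : ℝ) / (bb j : ℝ)| ≤
    5 / ((bb j : ℝ) * (bb (j + 1) : ℝ)) := by
  have h0 := Err_pos j
  have h1 := Err_pos (j + 1)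
  have hc : (aa (j + 1) : ℝ) * (bb j : ℝ) - (aa j : ℝ) * (bb (j + 1) : ℝ) =
      (-1) ^ j * 5 / ((j : ℝ) + 1) ^ 2 := by
    have h := casoratian j
    have h2 := congrArg (fun q : ℚ => (q : ℝ)) h
    push_cast at h2
    exact h2
  have h2 : (aa (j + 1) : ℝ) / (bb (j + 1) : ℝ) - (aa j : ℝ) / (bb j : ℝ) =
      ((-1) ^ j * 5 / ((j : ℝ) + 1) ^ 2) / ((bb j : ℝ) * (bb (j + 1) : ℝ)) := by
    rw [← hc]
    field_simp
  rw [h2, abs_div, abs_of_pos (mul_pos h0 h1)]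
  refine div_le_div_of_nonneg_right ?_ (mul_pos h0 h1).le
  rw [abs_div, abs_mul, abs_pow, abs_neg, abs_one, one_pow, one_mul, abs_of_pos (by norm_num : (0 : ℝ) < 5),
    abs_of_pos (by positivity : (0 : ℝ) < ((j : ℝ) + 1) ^ 2)]
  refine div_le_self (by norm_num) ?_
  have : (0 : ℝ) ≤ (j : ℝ) := Nat.cast_nonneg j
  nlinarith

private theorem Err_sum (n i : ℕ) : |(aa (n + i) : ℝ) / (bb (n + i) : ℝ) - (aa n : ℝ) / (bb n : ℝ)| ≤
    45 / 8 * (1 - (1 / 9) ^ i) / ((bb n : ℝ) * (bb (n + 1) : ℝ)) := by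
  have h0 := Err_pos n
  have h1 := Err_pos (n + 1)
  induction i with
  | zero => simp
  | succ i ih =>
    have hs := Err_step (n + i)
    have hp : 5 / ((bb (n + i) : ℝ) * (bb (n + i + 1) : ℝ)) ≤
        5 * (1 / 9) ^ i / ((bb n : ℝ) * (bb (n + 1) : ℝ)) := by
      have h2 := Err_pow n i
      have h3 := Err_pow (n + 1) i
      have h4 : n + 1 + i = n + i + 1 := by omega
      rw [h4] at h3
      have h5 : (9 : ℝ) ^ i * ((bb n : ℝ) * (bb (n + 1) : ℝ)) ≤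
          (bb (n + i) : ℝ) * (bb (n + i + 1) : ℝ) := by
        have h6 : (9 : ℝ) ^ i * ((bb n : ℝ) * (bb (n + 1) : ℝ)) =
            (3 ^ i * (bb n : ℝ)) * (3 ^ i * (bb (n + 1) : ℝ)) := by
          have : (9 : ℝ) ^ i = 3 ^ i * 3 ^ i := by rw [← mul_pow]; norm_num
          rw [this]; ring
        rw [h6]
        exact mul_le_mul h2 h3 (by positivity) (Err_pos _).le
      have h7 : (0 : ℝ) < 9 ^ i * ((bb n : ℝ) * (bb (n + 1) : ℝ)) := by positivity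
      calc 5 / ((bb (n + i) : ℝ) * (bb (n + i + 1) : ℝ))
          ≤ 5 / (9 ^ i * ((bb n : ℝ) * (bb (n + 1) : ℝ))) :=
            div_le_div_of_nonneg_left (by norm_num) h7 h5
        _ = 5 * (1 / 9) ^ i / ((bb n : ℝ) * (bb (n + 1) : ℝ)) := by
            rw [one_div, inv_pow]; field_simp
    have ht : |(aa (n + (i + 1)) : ℝ) / (bb (n + (i + 1)) : ℝ) - (aa n : ℝ) / (bb n : ℝ)| ≤
        |(aa (n + i + 1) : ℝ) / (bb (n + i + 1) : ℝ) - (aa (n + i) : ℝ) / (bb (n + i) : ℝ)| +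
        |(aa (n + i) : ℝ) / (bb (n + i) : ℝ) - (aa n : ℝ) / (bb n : ℝ)| := by
      exact abs_sub_le _ _ _
    refine ht.trans ((add_le_add (hs.trans hp) ih).trans (le_of_eq ?_))
    rw [← add_div, pow_succ]
    congr 1
    ring

theorem err (n : ℕ) : |(bb n : ℝ) * (Real.pi ^ 2 / 6) - (aa n : ℝ)| ≤ 6 / (bb (n + 1) : ℝ) := by
  have h0 := Err_pos n
  have h1 := Err_pos (n + 1)
  have hlim : Filter.Tendsto (fun i : ℕ => |(aa (n + i) : ℝ) / (bb (n + i) : ℝ) - (aa n : ℝ) / (bb n : ℝ)|)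
      Filter.atTop (nhds |Real.pi ^ 2 / 6 - (aa n : ℝ) / (bb n : ℝ)|) := by
    refine Filter.Tendsto.abs (Filter.Tendsto.sub_const ?_ _)
    have h2 := (Filter.tendsto_add_atTop_iff_nat n).2 conv
    refine h2.congr (fun i => ?_)
    rw [Nat.add_comm n i]
  have hb : |Real.pi ^ 2 / 6 - (aa n : ℝ) / (bb n : ℝ)| ≤ 6 / ((bb n : ℝ) * (bb (n + 1) : ℝ)) := by
    refine le_of_tendsto' hlim (fun i => (Err_sum n i).trans ?_)
    refine div_le_div_of_nonneg_right ?_ (by positivity)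
    have h3 : (0 : ℝ) ≤ (1 / 9) ^ i := by positivity
    linarith
  have h4 : (bb n : ℝ) * (Real.pi ^ 2 / 6) - (aa n : ℝ) =
      (bb n : ℝ) * (Real.pi ^ 2 / 6 - (aa n : ℝ) / (bb n : ℝ)) := by
    field_simp
  rw [h4, abs_mul, abs_of_pos h0]
  calc (bb n : ℝ) * |Real.pi ^ 2 / 6 - (aa n : ℝ) / (bb n : ℝ)|
      ≤ (bb n : ℝ) * (6 / ((bb n : ℝ) * (bb (n + 1) : ℝ))) := mul_le_mul_of_nonneg_left hb h0.le
    _ = 6 / (bb (n + 1) : ℝ) := by field_simp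

end Pool.Agent.H60.AP
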