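import Pool.Agent.H60.AP.Defs

/-!
# IntA: integrality

`d n = Nat.lcmUpto n` (Mathlib, `(Icc 1 n).lcm id`, `Nat.factorization_lcmUpto`).
PROOF.  (1) `mul_choose_dvd`: `m * C(n,m) ∣ d n` for `1 ≤ m ≤ n`.  Induction proof without valuations:
`m C(n,m) = n C(n-1,m-1)`; known: `∫ x^(m-1) (1-x)^(n-m) = 1/(m C(n,m)) = ∑_i (-1)^i C(n-m,i)/(m+i)`, so
`d n/(m C(n,m)) = ∑_i (-1)^i C(n-m,i) d n/(m+i)` is an integer (the identity `∑_i (-1)^i C(N,i)/(m+i) = 1/(m C(N+m,m))` by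
induction on `N`).  Or by valuations: `Nat.factorization_choose_le_log`-type: `v_p(m) + v_p(C(n,m)) ≤ log_p n`
(`Nat.factorization_choose'`, Kummer), and `Nat.factorization_prime_le_iff_dvd`.
(2) For `1 ≤ m ≤ k ≤ n`: `C(n+k,k) / (m^2 C(n,m) C(n+m,m)) = C(n+k,k-m) / (m^2 C(n,m) C(k,m))`, because
`C(n+k,k) C(k,m) = C(n+k,k-m) C(n+m,m)` (`Nat.choose_mul`, `Nat.add_choose_...`), and
`m C(n,m) ∣ d n`, `m C(k,m) ∣ d k ∣ d n`.  So `d^2 C(n+k,k) ee n m` is an integer.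
(3) `d^2 * 2 (-1)^(m+1)/m^2` is an integer.  So `d^2 lam n k cc n k` is an integer for `k ≤ n`; sum over `k`.
(4) `bb n` is an integer: `d^2 bb n = ((lcm)^2 * ∑ C(n,k)^2 C(n+k,k) : ℕ)`.  About 140 lines.
-/

set_option autoImplicit false

namespace Pool.Agent.H60.AP

theorem mul_choose_dvd (n m : ℕ) (hm : 1 ≤ m) (hmn : m ≤ n) : m * n.choose m ∣ Nat.lcmUpto n := by
  have hc : n.choose m ≠ 0 := Nat.choose_ne_zero hmn
  have hm0 : m ≠ 0 := by omega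
  rw [← Nat.factorization_prime_le_iff_dvd (Nat.mul_ne_zero hm0 hc) (Nat.lcmUpto_ne_zero n)]
  intro p hp
  rw [Nat.factorization_lcmUpto n hp, Nat.factorization_mul hm0 hc, Finsupp.add_apply,
    Nat.factorization_choose hp hmn (Nat.lt_succ_self _)]
  set a := m.factorization p with ha
  have hpa : p ^ a ∣ m := Nat.ordProj_dvd m p
  have hal : a ≤ Nat.log p n :=
    Nat.le_log_of_pow_le hp.one_lt (le_trans (Nat.le_of_dvd (by omega) hpa) hmn)
  have hsub : (Finset.Ico 1 (Nat.log p n).succ).filter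
      (fun i => p ^ i ≤ m % p ^ i + (n - m) % p ^ i) ⊆ Finset.Ico (a + 1) (Nat.log p n).succ := by
    intro i hi
    rw [Finset.mem_filter, Finset.mem_Ico] at hi
    rw [Finset.mem_Ico]
    refine ⟨?_, hi.1.2⟩
    by_contra hlt
    have hia : i ≤ a := by omega
    have hd : p ^ i ∣ m := (pow_dvd_pow p hia).trans hpa
    have h0 : m % p ^ i = 0 := Nat.mod_eq_zero_of_dvd hd
    have h1 : (n - m) % p ^ i < p ^ i := Nat.mod_lt _ (pow_pos hp.pos i)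
    omega
  have hcard := Finset.card_le_card hsub
  rw [Nat.card_Ico] at hcard
  omega

private theorem IntA_lcm_dvd {k n : ℕ} (h : k ≤ n) : Nat.lcmUpto k ∣ Nat.lcmUpto n := by
  unfold Nat.lcmUpto
  refine Finset.lcm_dvd fun b hb => Finset.dvd_lcm ?_
  rw [Finset.mem_Icc] at hb ⊢
  omega

private theorem IntA_first (n m : ℕ) (hm : 1 ≤ m) (hmn : m ≤ n) :
    ∃ z : ℤ, (Nat.lcmUpto n : ℚ) ^ 2 * ((-1) ^ (m + 1) / (m : ℚ) ^ 2) = z := by
  have hd : m ∣ Nat.lcmUpto n := by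
    unfold Nat.lcmUpto
    exact Finset.dvd_lcm (Finset.mem_Icc.2 ⟨hm, hmn⟩)
  obtain ⟨x, hx⟩ := hd
  have hm0 : (m : ℚ) ≠ 0 := by exact_mod_cast (show m ≠ 0 by omega)
  refine ⟨(-1) ^ (m + 1) * (x : ℤ) ^ 2, ?_⟩
  rw [hx]
  push_cast
  field_simp

private theorem IntA_second (n k m : ℕ) (hm : 1 ≤ m) (hmk : m ≤ k) (hkn : k ≤ n) :
    ∃ z : ℤ, (Nat.lcmUpto n : ℚ) ^ 2 * (((n + k).choose k : ℚ) * ee n m) = z := by
  obtain ⟨x, hx⟩ := mul_choose_dvd n m hm (hmk.trans hkn)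
  obtain ⟨y, hy⟩ := (mul_choose_dvd k m hm hmk).trans (IntA_lcm_dvd hkn)
  have hcm : (n + k).choose k * k.choose m = (n + k).choose (k - m) * (n + m).choose m := by
    have h := Nat.choose_mul (n := n + k) (k := k) (s := k - m) (by omega)
    rw [Nat.choose_symm hmk] at h
    have e1 : n + k - (k - m) = n + m := by omega
    have e2 : k - (k - m) = m := by omega
    rw [e1, e2] at h
    exact h
  have hm0 : (m : ℚ) ≠ 0 := by exact_mod_cast (show m ≠ 0 by omega)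
  have h1 : (n.choose m : ℚ) ≠ 0 := by
    exact_mod_cast Nat.choose_ne_zero (hmk.trans hkn)
  have h2 : ((n + m).choose m : ℚ) ≠ 0 := by
    exact_mod_cast Nat.choose_ne_zero (show m ≤ n + m by omega)
  have hxq : (Nat.lcmUpto n : ℚ) = (m : ℚ) * (n.choose m : ℚ) * (x : ℚ) := by
    exact_mod_cast hx
  have hyq : (Nat.lcmUpto n : ℚ) = (m : ℚ) * (k.choose m : ℚ) * (y : ℚ) := by
    exact_mod_cast hy
  have hcq : ((n + k).choose k : ℚ) * (k.choose m : ℚ) =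
      ((n + k).choose (k - m) : ℚ) * ((n + m).choose m : ℚ) := by
    exact_mod_cast hcm
  refine ⟨(-1) ^ (n + m + 1) * ((x : ℤ) * (y : ℤ) * ((n + k).choose (k - m) : ℤ)), ?_⟩
  have hd : (Nat.lcmUpto n : ℚ) ^ 2 * ((n + k).choose k : ℚ) =
      (m : ℚ) ^ 2 * (n.choose m : ℚ) * ((n + m).choose m : ℚ) *
        ((x : ℚ) * (y : ℚ) * ((n + k).choose (k - m) : ℚ)) := by
    rw [pow_two]
    nth_rewrite 1 [hxq]
    rw [hyq]
    linear_combination ((m : ℚ) ^ 2 * (n.choose m : ℚ) * (x : ℚ) * (y : ℚ)) * hcq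
  unfold ee
  rw [← mul_assoc, hd]
  push_cast
  field_simp

private theorem IntA_sum {s : Finset ℕ} {f : ℕ → ℚ} (h : ∀ i ∈ s, ∃ z : ℤ, f i = z) :
    ∃ z : ℤ, ∑ i ∈ s, f i = z := by
  classical
  induction s using Finset.induction_on with
  | empty => exact ⟨0, by simp⟩
  | insert a s ha ih =>
    obtain ⟨z1, h1⟩ := h a (Finset.mem_insert_self a s)
    obtain ⟨z2, h2⟩ := ih (fun i hi => h i (Finset.mem_insert_of_mem hi))
    refine ⟨z1 + z2, ?_⟩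
    rw [Finset.sum_insert ha, h1, h2]
    push_cast
    ring

theorem int_aa (n : ℕ) : ∃ z : ℤ, (Nat.lcmUpto n : ℚ) ^ 2 * aa n = z := by
  unfold aa
  rw [Finset.mul_sum]
  refine IntA_sum fun k hk => ?_
  have hkn : k ≤ n := by
    have := Finset.mem_range.1 hk
    omega
  obtain ⟨z1, h1⟩ := IntA_sum (s := Finset.Icc 1 n)
    (f := fun m => (Nat.lcmUpto n : ℚ) ^ 2 * ((-1) ^ (m + 1) / (m : ℚ) ^ 2))
    (fun m hm => IntA_first n m (Finset.mem_Icc.1 hm).1 (Finset.mem_Icc.1 hm).2)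
  obtain ⟨z2, h2⟩ := IntA_sum (s := Finset.Icc 1 k)
    (f := fun m => (Nat.lcmUpto n : ℚ) ^ 2 * (((n + k).choose k : ℚ) * ee n m))
    (fun m hm => IntA_second n k m (Finset.mem_Icc.1 hm).1 (Finset.mem_Icc.1 hm).2 hkn)
  rw [← Finset.mul_sum] at h1 h2
  rw [← Finset.mul_sum] at h2
  refine ⟨2 * ((n.choose k : ℤ) ^ 2 * ((n + k).choose k : ℤ)) * z1 + (n.choose k : ℤ) ^ 2 * z2, ?_⟩
  unfold lam cc
  push_cast
  rw [← h1, ← h2]
  ring

theorem int_bb (n : ℕ) : ∃ z : ℤ, bb n = z := by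
  unfold bb
  refine IntA_sum fun k _ => ?_
  refine ⟨(n.choose k : ℤ) ^ 2 * ((n + k).choose k : ℤ), ?_⟩
  unfold lam
  push_cast
  ring

end Pool.Agent.H60.AP
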