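import Pool.Agent.H63.SW.Main

/-!
# LcmBd: `lcm(1..n) ≤ C e^((1+ε) n)`

PROOF.  `Chebyshev.psi_eq_log_lcmUpto` (Mathlib): `log (lcmUpto n) = psi n`.  `theta_pnt` (`H63/SW/Main`, with `A = 1`):
`|theta x - x| ≤ C x/log x` for `x ≥ 2`; `psi x - theta x ≤ 2 √x log x`-type bound in Mathlib (`Chebyshev.abs_psi_sub_theta_le...`,
look in `Mathlib/NumberTheory/Chebyshev.lean`).  So `psi n ≤ (1 + ε) n` for `n ≥ N`, and for `n < N` a constant.
About 50 lines.
-/

set_option autoImplicit false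

namespace Pool.Agent.H60.AP

private theorem LcmBd_psi (ε : ℝ) (hε : 0 < ε) :
    ∀ᶠ x : ℝ in Filter.atTop, Chebyshev.psi x ≤ (1 + ε) * x := by
  obtain ⟨C, hC⟩ := Pool.Agent.SW.theta_pnt 1
  have h1 : ∀ᶠ x : ℝ in Filter.atTop, C / Real.log x ≤ ε / 2 := by
    have h : Filter.Tendsto (fun x : ℝ => C / Real.log x) Filter.atTop (nhds 0) :=
      Filter.Tendsto.const_div_atTop Real.tendsto_log_atTop C
    exact h.eventually_le_const (by positivity)
  have h2 : ∀ᶠ x : ℝ in Filter.atTop, ‖Real.log x‖ ≤ (ε / 4) * ‖x ^ ((1 : ℝ) / 2)‖ :=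
    (isLittleO_log_rpow_atTop (by norm_num : (0 : ℝ) < 1 / 2)).bound (by positivity)
  filter_upwards [h1, h2, Filter.eventually_ge_atTop (2 : ℝ)] with x h1 h2 h3
  have hx0 : 0 < x := by linarith
  have hlog : 0 < Real.log x := Real.log_pos (by linarith)
  have h4 := hC x h3
  rw [pow_one] at h4
  have h5 : C * x / Real.log x ≤ ε / 2 * x := by
    rw [mul_comm C x, mul_div_assoc, mul_comm]
    exact mul_le_mul_of_nonneg_right h1 hx0.le
  have h6 := Chebyshev.psi_sub_theta_le (x := x) (by linarith)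
  have h7 : Real.log x ≤ ε / 4 * √x := by
    rw [Real.norm_eq_abs, Real.norm_eq_abs, abs_of_pos hlog, ← Real.sqrt_eq_rpow,
      abs_of_nonneg (Real.sqrt_nonneg x)] at h2
    exact h2
  have h8 : 2 * √x * Real.log x ≤ ε / 2 * x := by
    have h9 : √x * √x = x := Real.mul_self_sqrt hx0.le
    have h10 : 0 ≤ √x := Real.sqrt_nonneg x
    calc 2 * √x * Real.log x ≤ 2 * √x * (ε / 4 * √x) := by
          exact mul_le_mul_of_nonneg_left h7 (by positivity)
      _ = ε / 2 * (√x * √x) := by ring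
      _ = ε / 2 * x := by rw [h9]
  have h11 := (abs_le.1 h4).2
  linarith

theorem lcm_bound (ε : ℝ) (hε : 0 < ε) : ∃ C : ℝ, 0 < C ∧ ∀ n : ℕ,
    (Nat.lcmUpto n : ℝ) ≤ C * Real.exp ((1 + ε) * n) := by
  obtain ⟨N, hN⟩ := Filter.eventually_atTop.1
    ((tendsto_natCast_atTop_atTop (R := ℝ)).eventually (LcmBd_psi ε hε))
  refine ⟨1 + ∑ i ∈ Finset.range N, (Nat.lcmUpto i : ℝ), by positivity, fun n => ?_⟩
  have hS : 0 ≤ ∑ i ∈ Finset.range N, (Nat.lcmUpto i : ℝ) := by positivity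
  have hpos : (0 : ℝ) < (Nat.lcmUpto n : ℝ) := by exact_mod_cast Nat.lcmUpto_pos n
  rcases le_or_gt N n with h | h
  · have h1 := hN n h
    rw [Chebyshev.psi_eq_log_lcmUpto] at h1
    have h2 : (Nat.lcmUpto n : ℝ) ≤ Real.exp ((1 + ε) * n) := (Real.log_le_iff_le_exp hpos).1 h1
    have h3 : 0 < Real.exp ((1 + ε) * n) := Real.exp_pos _
    nlinarith
  · have h1 : (Nat.lcmUpto n : ℝ) ≤ ∑ i ∈ Finset.range N, (Nat.lcmUpto i : ℝ) :=
      Finset.single_le_sum (f := fun i => (Nat.lcmUpto i : ℝ)) (fun i _ => by positivity)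
        (Finset.mem_range.2 h)
    have h2 : 1 ≤ Real.exp ((1 + ε) * n) := Real.one_le_exp (by positivity)
    nlinarith

end Pool.Agent.H60.AP
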