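import Pool.Agent.H60.AP.MeasPi
import Pool.Agent.H3.EP.Measure
import Pool.Agent.H3.EP.PiMeasure

/-!
# Main: the two-sided theorem for `1, e, π`

`dist1 x = |x - round x|`.  PROOF.  Let `D = |a + b e + c π|`, `x = m b e`, `y = m c π`; `m a + x + y` has absolute value `m D`,
so `dist1 y ≤ |y + (m a + round x)| ≤ m D + dist1 x` (`round_le`: `|y - round y| ≤ |y - z|` for integers `z`), same with `x`, `y`
exchanged.  (1) `meas_pi` for `q = m |c|` (`natAbs`; sign of `c` absorbed in `p`): `C0/(m|c|)^23 ≤ dist1 y`.  With `C = C0/2`.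
(2) `H3EP.measure_log` for `q = m |b|`: `1/(200 q log (q+2)) ≤ dist1 x`; `C ≤ 1/400`.
(3) `qq n = H3EP.qe n` (`1, 1, 7, 71, ...`), `|qe n * e - pe n| = J n`, `J n * qe (n+1) ≤ 2` (`H3EP.J_abs`, `H3EP.J_mul_qe_le`, see
`Results/MP_58e087_nt/ExcludedFamily.lean`): if `s b = k q_n` then `dist1 (s b e) ≤ |k| J n ≤ 2 |k|/q_(n+1) ≤ 2 C'/(s |c|)^23`; take
`C = C'`, i.e. the constant of (3) half of that of (1).  Choose one `C = min (C0/4) (1/400)` for all parts.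
-/

set_option autoImplicit false

namespace Pool.Agent.H60.AP

/-- the distance to the nearest integer -/
noncomputable def dist1 (x : ℝ) : ℝ := |x - round x|

theorem dist1_le (x : ℝ) (z : ℤ) : dist1 x ≤ |x - z| := round_le x z

theorem dist1_neg_le (x : ℝ) (z : ℤ) : dist1 x ≤ |x + z| := by
  have h := round_le x (-z)
  unfold dist1
  push_cast at h
  simpa [sub_neg_eq_add] using h

/-- `dist1 y ≤ m |a + b e + c π| + dist1 x`. -/
theorem dist1_add (x y : ℝ) (z : ℤ) : dist1 y ≤ |(z : ℝ) + x + y| + dist1 x := by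
  have h := dist1_neg_le y (z + round x)
  have e : y + ((z + round x : ℤ) : ℝ) = ((z : ℝ) + x + y) - (x - round x) := by
    push_cast
    ring
  rw [e] at h
  exact h.trans (abs_sub _ _)

theorem abs_cast_natAbs (c : ℤ) : ((c.natAbs : ℕ) : ℝ) = |(c : ℝ)| := by
  rw [Nat.cast_natAbs, Int.cast_abs]

/-- lower bound for the distance of an integer multiple of `y` to the integers, from a measure -/
theorem dist1_lower (y : ℝ) (f : ℝ → ℝ) (h : ∀ (p : ℤ) (q : ℕ), 1 ≤ q → f q ≤ |(q : ℝ) * y - p|)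
    (c : ℤ) (hc : c ≠ 0) : f |(c : ℝ)| ≤ dist1 (c * y) := by
  have hq : 1 ≤ c.natAbs := Int.natAbs_pos.mpr hc
  unfold dist1
  rcases Int.natAbs_eq c with hcc | hcc
  · have h1 := h (round ((c : ℝ) * y)) c.natAbs hq
    have e : (c : ℝ) = ((c.natAbs : ℕ) : ℝ) := by
      conv_lhs => rw [hcc]
      simp
    rw [abs_cast_natAbs] at h1
    rw [abs_cast_natAbs] at e
    have e2 : (c : ℝ) * y - round ((c : ℝ) * y) = |(c : ℝ)| * y - round ((c : ℝ) * y) := by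
      rw [← e]
    rw [e2]
    exact h1
  · have h1 := h (-round ((c : ℝ) * y)) c.natAbs hq
    have e : (c : ℝ) = -((c.natAbs : ℕ) : ℝ) := by
      conv_lhs => rw [hcc]
      simp
    rw [abs_cast_natAbs] at h1
    rw [abs_cast_natAbs] at e
    have e2 : (c : ℝ) * y - round ((c : ℝ) * y) = -(|(c : ℝ)| * y - ((-round ((c : ℝ) * y) : ℤ) : ℝ)) := by
      push_cast
      have : (c : ℝ) * y = -(|(c : ℝ)| * y) := by
        calc (c : ℝ) * y = (-|(c : ℝ)|) * y := by rw [← e]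
          _ = _ := by ring
      linarith
    rw [e2, abs_neg]
    exact h1

theorem main_thm : ∃ C : ℝ, 0 < C ∧ ∀ a b c : ℤ, b ≠ 0 → c ≠ 0 → ∀ m : ℕ, 1 ≤ m →
    (dist1 (m * b * Real.exp 1) ≤ C / ((m : ℝ) * |(c : ℝ)|) ^ 23 →
      C / ((m : ℝ) ^ 24 * |(c : ℝ)| ^ 23) ≤ |(a : ℝ) + b * Real.exp 1 + c * Real.pi|) ∧
    (dist1 (m * c * Real.pi) ≤ C / ((m : ℝ) * |(b : ℝ)| * Real.log (m * |(b : ℝ)| + 2)) →
      C / ((m : ℝ) ^ 2 * |(b : ℝ)| * Real.log (m * |(b : ℝ)| + 2)) ≤ |(a : ℝ) + b * Real.exp 1 + c * Real.pi|) ∧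
    (∀ (n : ℕ) (k : ℤ), (m : ℤ) * b = k * H3EP.qe n →
      |(k : ℝ)| * ((m : ℝ) * |(c : ℝ)|) ^ 23 ≤ C * (H3EP.qe (n + 1) : ℝ) →
      C / ((m : ℝ) ^ 24 * |(c : ℝ)| ^ 23) ≤ |(a : ℝ) + b * Real.exp 1 + c * Real.pi|) := by
  obtain ⟨C0, hC0, hpi⟩ := meas_pi
  refine ⟨min (C0 / 4) (1 / 400), by positivity, fun a b c hb hc m hm => ?_⟩
  set C : ℝ := min (C0 / 4) (1 / 400) with hCdef
  have hC : 0 < C := by positivity
  have hCa : C ≤ C0 / 4 := min_le_left _ _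
  have hCb : C ≤ 1 / 400 := min_le_right _ _
  have hm0 : (0 : ℝ) < m := by exact_mod_cast hm
  have hm1 : (1 : ℝ) ≤ m := by exact_mod_cast hm
  have hb0 : (1 : ℝ) ≤ |(b : ℝ)| := by
    rw [← Int.cast_abs]
    exact_mod_cast Int.one_le_abs hb
  have hc0 : (1 : ℝ) ≤ |(c : ℝ)| := by
    rw [← Int.cast_abs]
    exact_mod_cast Int.one_le_abs hc
  set D : ℝ := |(a : ℝ) + b * Real.exp 1 + c * Real.pi| with hD
  have habs : |(((m : ℤ) * a : ℤ) : ℝ) + m * b * Real.exp 1 + m * c * Real.pi| = m * D := by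
    have e : (((m : ℤ) * a : ℤ) : ℝ) + m * b * Real.exp 1 + m * c * Real.pi =
        (m : ℝ) * ((a : ℝ) + b * Real.exp 1 + c * Real.pi) := by
      push_cast
      ring
    rw [e, abs_mul, abs_of_pos hm0]
  have habs' : |(((m : ℤ) * a : ℤ) : ℝ) + m * c * Real.pi + m * b * Real.exp 1| = m * D := by
    rw [← habs]
    congr 1
    ring
  -- lower bound for `m c π`
  have hy : C0 / ((m : ℝ) * |(c : ℝ)|) ^ 23 ≤ dist1 (m * c * Real.pi) := by
    have h1 := dist1_lower Real.pi (fun q => C0 / q ^ 23) hpi ((m : ℤ) * c)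
      (mul_ne_zero (by exact_mod_cast (by omega : m ≠ 0)) hc)
    have e : |(((m : ℤ) * c : ℤ) : ℝ)| = (m : ℝ) * |(c : ℝ)| := by
      push_cast
      rw [abs_mul, abs_of_pos hm0]
    have e2 : (((m : ℤ) * c : ℤ) : ℝ) = (m : ℝ) * c := by push_cast; ring
    simp only [e] at h1
    rw [e2] at h1
    exact h1
  -- lower bound for `m b e`
  have hx : 1 / (200 * ((m : ℝ) * |(b : ℝ)|) * Real.log ((m : ℝ) * |(b : ℝ)| + 2)) ≤ dist1 (m * b * Real.exp 1) := by
    have hmeas : ∀ (p : ℤ) (q : ℕ), 1 ≤ q → (fun q : ℝ => 1 / (200 * q * Real.log (q + 2))) (q : ℝ) ≤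
        |(q : ℝ) * Real.exp 1 - p| := by
      intro p q hq
      have := H3EP.measure_log (q : ℤ) (by exact_mod_cast hq) p
      simpa using this
    have h1 := dist1_lower (Real.exp 1) (fun q => 1 / (200 * q * Real.log (q + 2))) hmeas ((m : ℤ) * b)
      (mul_ne_zero (by exact_mod_cast (by omega : m ≠ 0)) hb)
    have e : |(((m : ℤ) * b : ℤ) : ℝ)| = (m : ℝ) * |(b : ℝ)| := by
      push_cast
      rw [abs_mul, abs_of_pos hm0]
    have e2 : (((m : ℤ) * b : ℤ) : ℝ) = (m : ℝ) * b := by push_cast; ring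
    simp only [e] at h1
    rw [e2] at h1
    exact h1
  have hmc : (0 : ℝ) < (m : ℝ) * |(c : ℝ)| := by positivity
  have h24 : (m : ℝ) ^ 24 * |(c : ℝ)| ^ 23 = m * ((m : ℝ) * |(c : ℝ)|) ^ 23 := by ring
  have part1 : dist1 (m * b * Real.exp 1) ≤ 2 * C / ((m : ℝ) * |(c : ℝ)|) ^ 23 →
      C / ((m : ℝ) ^ 24 * |(c : ℝ)| ^ 23) ≤ D := by
    intro h
    have h2 := dist1_add (m * b * Real.exp 1) (m * c * Real.pi) ((m : ℤ) * a)
    rw [habs] at h2
    have h3 : C0 / ((m : ℝ) * |(c : ℝ)|) ^ 23 - 2 * C / ((m : ℝ) * |(c : ℝ)|) ^ 23 ≤ m * D := by linarith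
    rw [← sub_div, div_le_iff₀ (by positivity)] at h3
    rw [h24, div_le_iff₀ (by positivity)]
    nlinarith
  refine ⟨fun h => part1 (h.trans (by gcongr; linarith)), fun h => ?_, fun n k hk hkc => part1 ?_⟩
  · have hlog : 0 < Real.log ((m : ℝ) * |(b : ℝ)| + 2) := Real.log_pos (by
      have : (0 : ℝ) < (m : ℝ) * |(b : ℝ)| := by positivity
      linarith)
    set l : ℝ := Real.log ((m : ℝ) * |(b : ℝ)| + 2) with hl
    have h2 := dist1_add (m * c * Real.pi) (m * b * Real.exp 1) ((m : ℤ) * a)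
    rw [habs'] at h2
    have hmb : (0 : ℝ) < (m : ℝ) * |(b : ℝ)| := by positivity
    have h3 : 1 / (200 * ((m : ℝ) * |(b : ℝ)|) * l) = (1 / 200) / ((m : ℝ) * |(b : ℝ)| * l) := by
      rw [div_div]
      ring_nf
    rw [h3] at hx
    have h4 : (1 / 200) / ((m : ℝ) * |(b : ℝ)| * l) - C / ((m : ℝ) * |(b : ℝ)| * l) ≤ m * D := by linarith
    rw [← sub_div, div_le_iff₀ (by positivity)] at h4
    rw [div_le_iff₀ (by positivity)]
    have e : D * ((m : ℝ) ^ 2 * |(b : ℝ)| * l) = m * D * ((m : ℝ) * |(b : ℝ)| * l) := by ring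
    rw [e]
    linarith
  · have hJ0 := H3EP.J_pos n
    have hq : (0 : ℝ) < H3EP.qe (n + 1) := by exact_mod_cast H3EP.qe_pos (n + 1)
    have hJ := H3EP.J_mul_qe_le n
    have h5 : dist1 (m * b * Real.exp 1) ≤ |(k : ℝ)| * H3EP.J n := by
      have h6 := dist1_le (m * b * Real.exp 1) (k * H3EP.pe n)
      have e : (m : ℝ) * b * Real.exp 1 - ((k * H3EP.pe n : ℤ) : ℝ) =
          (k : ℝ) * ((H3EP.qe n : ℝ) * Real.exp 1 - H3EP.pe n) := by
        have hk' : (m : ℝ) * b = k * H3EP.qe n := by exact_mod_cast hk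
        rw [hk']
        push_cast
        ring
      rw [e, abs_mul, H3EP.J_abs] at h6
      exact h6
    refine h5.trans ?_
    rw [le_div_iff₀ (by positivity)]
    have h7 : |(k : ℝ)| * H3EP.J n * ((m : ℝ) * |(c : ℝ)|) ^ 23 ≤ C * (H3EP.J n * H3EP.qe (n + 1)) := by
      calc |(k : ℝ)| * H3EP.J n * ((m : ℝ) * |(c : ℝ)|) ^ 23
          = H3EP.J n * (|(k : ℝ)| * ((m : ℝ) * |(c : ℝ)|) ^ 23) := by ring
        _ ≤ H3EP.J n * (C * (H3EP.qe (n + 1) : ℝ)) := mul_le_mul_of_nonneg_left hkc hJ0.le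
        _ = _ := by ring
    nlinarith

end Pool.Agent.H60.AP
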