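import Pool.Agent.H60.AP.MeasSq

/-!
# MeasPi: `|q π - p| ≥ C/q^23`

PROOF.  Let `δ = |q π - p|`.  If `δ ≥ 1` any `C ≤ 1` works.  Otherwise `|p| ≤ q π + 1 ≤ 5 q`, so `|q π + p| ≤ 9 q` and
`|6 q^2 (π²/6) - p^2| = δ |q π + p| ≤ 9 q δ`; by `meas_sq` with the integers `6 q^2`, `p^2` this is `≥ C/(6 q^2)^11`.
So `δ ≥ C/(9 * 6^11 * q^23)`.
-/

set_option autoImplicit false

namespace Pool.Agent.H60.AP

theorem meas_pi : ∃ C : ℝ, 0 < C ∧ ∀ (p : ℤ) (q : ℕ), 1 ≤ q →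
    C / (q : ℝ) ^ 23 ≤ |(q : ℝ) * Real.pi - p| := by
  obtain ⟨C, hC, h⟩ := meas_sq
  refine ⟨min 1 (C / (9 * 6 ^ 11)), by positivity, fun p q hq => ?_⟩
  have hq1 : (1 : ℝ) ≤ q := by exact_mod_cast hq
  have hq0 : (0 : ℝ) < q := by linarith
  have hq23 : (1 : ℝ) ≤ (q : ℝ) ^ 23 := one_le_pow₀ hq1
  by_cases hδ : 1 ≤ |(q : ℝ) * Real.pi - p|
  · refine le_trans ?_ hδ
    rw [div_le_one (by positivity)]
    exact (min_le_left _ _).trans hq23
  · push Not at hδ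
    have hpi := Real.pi_lt_four
    have hpi0 := Real.pi_pos
    have hsum : |(q : ℝ) * Real.pi + p| ≤ 9 * q := by
      rw [abs_lt] at hδ
      rw [abs_le]
      constructor <;> nlinarith
    have hkey := h (p ^ 2) (6 * q ^ 2) (Nat.succ_le_of_lt (by positivity))
    have e : (((6 * q ^ 2 : ℕ) : ℝ)) * (Real.pi ^ 2 / 6) - ((p ^ 2 : ℤ) : ℝ) =
        ((q : ℝ) * Real.pi - p) * ((q : ℝ) * Real.pi + p) := by
      push_cast
      ring
    rw [e, abs_mul] at hkey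
    have h1 : C / (((6 * q ^ 2 : ℕ) : ℝ)) ^ 11 ≤ |(q : ℝ) * Real.pi - p| * (9 * q) :=
      hkey.trans (mul_le_mul_of_nonneg_left hsum (abs_nonneg _))
    have h2 : C / (9 * 6 ^ 11) / (q : ℝ) ^ 23 ≤ |(q : ℝ) * Real.pi - p| := by
      rw [div_le_iff₀ (by positivity), div_le_iff₀ (by positivity)]
      rw [div_le_iff₀ (by positivity)] at h1
      refine h1.trans (le_of_eq ?_)
      push_cast
      ring
    refine le_trans ?_ h2
    gcongr
    exact min_le_right _ _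

end Pool.Agent.H60.AP
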