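import Pool.Agent.H60.AP.Err
import Pool.Agent.H60.AP.IntA
import Pool.Agent.H60.AP.LcmBd
import Pool.Agent.H60.AP.Crit

/-!
# MeasSq: irrationality measure of `π²/6`

PROOF.  `lcm_bound` with `ε = 1/1000`; `d n = lcmUpto n`, `Q n = d(n)^2 bb n`, `P n = d(n)^2 aa n` (integers by `int_aa`, `int_bb`).
`|Q n| ≤ C e^(2.002 n) 11.091^n = C A^n`, `A = 11.091 exp(2.002)`.  `|Q n π²/6 - P n| ≤ d(n)^2 * 6/bb (n+1) ≤ 6/bb(n) d^2 ... ≤
C' exp(2.002 n) / 11.08^n = C'/B^n`, `B = 11.08/exp(2.002)` (`bb (n+1) ≥ 3 bb n ≥ bb n`).  `B > 1` since `exp 2.002 < 7.41`.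
`A ≤ B^11`: `11.091 exp(2.002)^12 ≤ 11.08^11`: `exp(2.002)^12 = exp(24.024)`, and `exp 1 < 2.7182818286`
(`Real.exp_one_lt_d9`), `exp(2.002) = exp(1)^2 * exp(.002)`, `exp(.002) ≤ 1/(1-.002)`: so `exp(2.002) ≤ 7.4039`, and
`11.091 * 7.4039^12 = 3.0096e11 * ... ≤ 11.08^11 = 3.0885e11` (`norm_num`; check: ln: 2.40614 + 12*2.002002 = 26.43017 < 26.45656).
`hne`: `casoratian` times `(d n)^2 (d (n+1))^2 ≠ 0`.  Apply `crit` with `κ = 11`.  About 80 lines.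
-/

set_option autoImplicit false

namespace Pool.Agent.H60.AP

private theorem MeasSq_exp : Real.exp 2.002 ≤ 7.4039 := by
  have h1 : Real.exp 2.002 = Real.exp 1 * Real.exp 1 * Real.exp 0.002 := by
    rw [← Real.exp_add, ← Real.exp_add]
    norm_num
  have h2 := Real.exp_one_lt_d9
  have h3 : Real.exp 0.002 ≤ 1 / 0.998 := by
    have h4 := Real.one_sub_le_exp_neg (0.002 : ℝ)
    rw [Real.exp_neg] at h4
    have h5 : (0.998 : ℝ) ≤ (Real.exp 0.002)⁻¹ := by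
      refine le_trans (by norm_num) h4
    rw [one_div]
    exact (le_inv_comm₀ (by norm_num) (Real.exp_pos _)).1 h5
  have h0 := Real.exp_pos 1
  rw [h1]
  have h6 : Real.exp 1 * Real.exp 1 ≤ 2.7182818286 * 2.7182818286 :=
    mul_le_mul h2.le h2.le h0.le (by norm_num)
  calc Real.exp 1 * Real.exp 1 * Real.exp 0.002
      ≤ (2.7182818286 * 2.7182818286) * (1 / 0.998) :=
        mul_le_mul h6 h3 (Real.exp_pos _).le (by norm_num)
    _ ≤ 7.4039 := by norm_num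

theorem meas_sq : ∃ C : ℝ, 0 < C ∧ ∀ (p : ℤ) (q : ℕ), 1 ≤ q →
    C / (q : ℝ) ^ 11 ≤ |(q : ℝ) * (Real.pi ^ 2 / 6) - p| := by
  obtain ⟨C0, hC0, hd⟩ := lcm_bound (1 / 1000) (by norm_num)
  obtain ⟨c, C, hc, hC, hb⟩ := bb_bounds
  choose b hbb using int_bb
  choose P hP using int_aa
  obtain ⟨E, hE⟩ : ∃ E : ℝ, E = Real.exp 2.002 := ⟨_, rfl⟩
  have hE0 : 0 < E := by rw [hE]; exact Real.exp_pos _
  have hE1 : E ≤ 7.4039 := by rw [hE]; exact MeasSq_exp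
  have hE2 : 1 ≤ E := by
    rw [hE]
    exact Real.one_le_exp (by norm_num)
  have hd2 : ∀ n : ℕ, (Nat.lcmUpto n : ℝ) ^ 2 ≤ C0 ^ 2 * E ^ n := by
    intro n
    have h1 := pow_le_pow_left₀ (Nat.cast_nonneg _) (hd n) 2
    refine h1.trans (le_of_eq ?_)
    rw [mul_pow, hE, ← Real.exp_nat_mul, ← Real.exp_nat_mul]
    congr 2
    push_cast
    ring
  have hbR : ∀ n, (bb n : ℝ) = b n := by
    intro n
    rw [hbb n]
    norm_cast
  have hPR : ∀ n, (Nat.lcmUpto n : ℝ) ^ 2 * (aa n : ℝ) = P n := by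
    intro n
    have h1 := congrArg (fun x : ℚ => (x : ℝ)) (hP n)
    push_cast at h1
    exact h1
  refine crit (Real.pi ^ 2 / 6) (11.091 * E) (11.08 / E) (C0 ^ 2 * C) (6 * C0 ^ 2 / c) 11 P
    (fun n => (Nat.lcmUpto n : ℤ) ^ 2 * b n) ?_ ?_ (by positivity) (by positivity) ?_ ?_ ?_ ?_
  · nlinarith
  · rw [one_lt_div hE0]
    linarith
  · rw [div_pow, le_div_iff₀ (by positivity)]
    have h1 : E ^ 12 ≤ 7.4039 ^ 12 := pow_le_pow_left₀ hE0.le hE1 12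
    calc 11.091 * E * E ^ 11 = 11.091 * E ^ 12 := by ring
      _ ≤ 11.091 * 7.4039 ^ 12 := by linarith
      _ ≤ 11.08 ^ 11 := by norm_num
  · intro n
    push_cast
    rw [← hbR, abs_of_nonneg (by
      have : (0 : ℝ) ≤ bb n := by
        have := one_le_bb n
        exact_mod_cast le_trans zero_le_one this
      positivity)]
    calc (Nat.lcmUpto n : ℝ) ^ 2 * (bb n : ℝ) ≤ (C0 ^ 2 * E ^ n) * (C * 11.091 ^ n) :=
          mul_le_mul (hd2 n) (hb n).2 (by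
            have := one_le_bb n
            exact_mod_cast le_trans zero_le_one this) (by positivity)
      _ = C0 ^ 2 * C * (11.091 * E) ^ n := by
          rw [mul_pow]
          ring
  · intro n
    push_cast
    rw [← hbR, ← hPR]
    have h1 : (Nat.lcmUpto n : ℝ) ^ 2 * (bb n : ℝ) * (Real.pi ^ 2 / 6) -
        (Nat.lcmUpto n : ℝ) ^ 2 * (aa n : ℝ) =
        (Nat.lcmUpto n : ℝ) ^ 2 * ((bb n : ℝ) * (Real.pi ^ 2 / 6) - (aa n : ℝ)) := by ring
    rw [h1, abs_mul, abs_of_nonneg (by positivity : (0 : ℝ) ≤ (Nat.lcmUpto n : ℝ) ^ 2)]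
    have h2 : c * 11.08 ^ n ≤ (bb (n + 1) : ℝ) := by
      refine le_trans ?_ (hb (n + 1)).1
      refine mul_le_mul_of_nonneg_left ?_ hc.le
      exact pow_le_pow_right₀ (by norm_num) (Nat.le_succ n)
    have h3 : 6 / (bb (n + 1) : ℝ) ≤ 6 / (c * 11.08 ^ n) :=
      div_le_div_of_nonneg_left (by norm_num) (by positivity) h2
    calc (Nat.lcmUpto n : ℝ) ^ 2 * |(bb n : ℝ) * (Real.pi ^ 2 / 6) - (aa n : ℝ)|
        ≤ (C0 ^ 2 * E ^ n) * (6 / (c * 11.08 ^ n)) :=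
          mul_le_mul (hd2 n) ((err n).trans h3) (abs_nonneg _) (by positivity)
      _ = 6 * C0 ^ 2 / c / (11.08 / E) ^ n := by
          rw [div_pow]
          field_simp
  · intro n h
    have h1 := casoratian n
    have h2 : ((Nat.lcmUpto n : ℚ) ^ 2 * bb n) * ((Nat.lcmUpto (n + 1) : ℚ) ^ 2 * aa (n + 1)) =
        ((Nat.lcmUpto (n + 1) : ℚ) ^ 2 * bb (n + 1)) * ((Nat.lcmUpto n : ℚ) ^ 2 * aa n) := by
      rw [hP n, hP (n + 1), hbb n, hbb (n + 1)]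
      exact_mod_cast h
    have hl : ∀ m : ℕ, (Nat.lcmUpto m : ℚ) ≠ 0 := by
      intro m
      have := Nat.lcmUpto_pos m
      positivity
    have h3 : ((Nat.lcmUpto n : ℚ) ^ 2 * (Nat.lcmUpto (n + 1) : ℚ) ^ 2) *
        (aa (n + 1) * bb n - aa n * bb (n + 1)) = 0 := by linear_combination h2
    rw [h1] at h3
    have h4 : ((Nat.lcmUpto n : ℚ) ^ 2 * (Nat.lcmUpto (n + 1) : ℚ) ^ 2) ≠ 0 :=
      mul_ne_zero (pow_ne_zero _ (hl n)) (pow_ne_zero _ (hl (n + 1)))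
    rcases mul_eq_zero.1 h3 with h5 | h5
    · exact h4 h5
    · have h6 : ((-1 : ℚ)) ^ n * 5 / ((n : ℚ) + 1) ^ 2 ≠ 0 := by
        refine div_ne_zero (mul_ne_zero (pow_ne_zero _ (by norm_num)) (by norm_num)) ?_
        positivity
      exact h6 h5

end Pool.Agent.H60.AP
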