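import Pool.Agent.H60.AP.RecB
import Pool.Agent.H60.AP.CDiff

/-!
# RecA: the recurrence of `aa`

PROOF.  Let `n = N + 1`, `AA n k = BB n k * cc n k + tt n k`, `tt n 0 = 0`, `tt n k = 3 (-1)^(n+k+1) C(n-1, k-1)` for `k ≥ 1`.
CLAIM (`wzA`): for all `k`
`AA n (k+1) - AA n k = (n+1)^2 lam (n+1) (k+1) cc (n+1) (k+1) - (11n^2+11n+3) lam n (k+1) cc n (k+1) - n^2 lam (n-1) (k+1) cc (n-1) (k+1)`.
Write `K = k + 1`.  Generic case `K ≤ n - 1`: substitute `cc (n+1) K = cc n K + D(n+1,K)`, `cc (n-1) K = cc n K - D(n,K)`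
(`cc_diff`), `cc n (K-1) = cc n K - ee n K` (`cc_succ_right`).  The terms with `cc n K` cancel by `wzB`.  Remains
`(n+1)^2 lam (n+1) K D(n+1,K) + n^2 lam (n-1) K D(n,K) = BB n (K-1) ee n K + tt n K - tt n (K-1)`, an identity between
factorials: all binomials by `C(a+b,a) = (a+b)!/(a! b!)`, `lam (k+j) k` by `lam_fact`; `n = K + j + 1`; `field_simp`, `ring`.
`K = n`: `lam (n-1) K = 0`, the other two terms as before.  `K = n + 1`: `lam n K = lam (n-1) K = 0`, `BB n K = 0`,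
`tt n (n+1) = 0`; the claim says `-(BB n n cc n n + tt n n) = (n+1)^2 lam (n+1) (n+1) cc (n+1) (n+1)`; here
`cc (n+1) (n+1) = cc (n+1) n + ee (n+1) (n+1)`, `cc (n+1) n = cc n n + D(n+1,n)`.  `K > n + 1`: all terms `0`.
Case `k = 0` of the sum: `AA n 0 = BB n 0 cc n 0`, and
`(n+1)^2 cc (n+1) 0 - (11n^2+11n+3) cc n 0 - n^2 cc (n-1) 0 = BB n 0 * cc n 0` because
`cc (n+1) 0 = cc n 0 + 2 (-1)^n/(n+1)^2`, `cc (n-1) 0 = cc n 0 - 2 (-1)^(n+1)/n^2`, the two corrections cancel.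
Sum over `k ∈ range (N + 2)`, telescoping, `AA n (n+1) = 0`.  About 200 lines.  (Numerically checked for n ≤ 9.)
-/

set_option autoImplicit false

namespace Pool.Agent.H60.AP

open Finset

/-- the correction `tt (N+1) k` -/
private def RecA_tt (N k : ℕ) : ℚ :=
  3 * (-1) ^ (N + k) * ((k : ℚ) / ((N : ℚ) + 1)) * ((N + 1).choose k : ℚ)

private theorem RecA_starA (k j : ℕ) :
    (((k + 1 + j : ℕ) : ℚ) + 2) ^ 2 * lam (k + 1 + j + 2) (k + 1) *
        (cc (k + 1 + j + 2) (k + 1) - cc (k + 1 + j + 1) (k + 1)) +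
      (((k + 1 + j : ℕ) : ℚ) + 1) ^ 2 * lam (k + 1 + j) (k + 1) *
        (cc (k + 1 + j + 1) (k + 1) - cc (k + 1 + j) (k + 1)) =
      BB (k + 1 + j + 1) k * ee (k + 1 + j + 1) (k + 1) + RecA_tt (k + 1 + j) (k + 1) -
        RecA_tt (k + 1 + j) k := by
  have d1 : cc (k + 1 + j + 2) (k + 1) - cc (k + 1 + j + 1) (k + 1) =
      (-1) ^ (j + 1) * 2 * ((k + 1).factorial : ℚ) ^ 2 * ((j + 1).factorial : ℚ) /
        ((((k + 1 : ℕ) : ℚ) + ((j + 1 : ℕ) : ℚ) + 1) * ((2 * (k + 1) + (j + 1) + 1).factorial : ℚ)) :=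
    cc_diff (k + 1) (j + 1)
  have d2 : cc (k + 1 + j + 1) (k + 1) - cc (k + 1 + j) (k + 1) =
      (-1) ^ j * 2 * ((k + 1).factorial : ℚ) ^ 2 * (j.factorial : ℚ) /
        ((((k + 1 : ℕ) : ℚ) + (j : ℚ) + 1) * ((2 * (k + 1) + j + 1).factorial : ℚ)) :=
    cc_diff (k + 1) j
  have l1 : lam (k + 1 + j + 2) (k + 1) =
      ((k + 1 + (j + 2)).factorial : ℚ) * ((2 * (k + 1) + (j + 2)).factorial : ℚ) /
        (((k + 1).factorial : ℚ) ^ 3 * ((j + 2).factorial : ℚ) ^ 2) := lam_fact (k + 1) (j + 2)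
  have l2 : lam (k + 1 + j) (k + 1) =
      ((k + 1 + j).factorial : ℚ) * ((2 * (k + 1) + j).factorial : ℚ) /
        (((k + 1).factorial : ℚ) ^ 3 * (j.factorial : ℚ) ^ 2) := lam_fact (k + 1) j
  have l3 : lam (k + 1 + j + 1) k =
      ((k + (j + 2)).factorial : ℚ) * ((2 * k + (j + 2)).factorial : ℚ) /
        ((k.factorial : ℚ) ^ 3 * ((j + 2).factorial : ℚ) ^ 2) := by
    rw [← lam_fact k (j + 2)]
    congr 1
    omega
  have c1 : ((k + 1 + j + 1).choose (k + 1) : ℚ) =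
      ((k + 1 + (j + 1)).factorial : ℚ) / (((k + 1).factorial : ℚ) * ((j + 1).factorial : ℚ)) :=
    Nat.cast_add_choose ℚ (a := k + 1) (b := j + 1)
  have c2 : ((k + 1 + j + 1 + (k + 1)).choose (k + 1) : ℚ) =
      ((k + 1 + (k + 1 + j + 1)).factorial : ℚ) /
        (((k + 1).factorial : ℚ) * ((k + 1 + j + 1).factorial : ℚ)) := by
    rw [← Nat.cast_add_choose ℚ (a := k + 1) (b := k + 1 + j + 1),
      Nat.add_comm (k + 1 + j + 1) (k + 1)]
  have c3 : ((k + 1 + j + 1).choose k : ℚ) =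
      ((k + (j + 2)).factorial : ℚ) / ((k.factorial : ℚ) * ((j + 2).factorial : ℚ)) := by
    rw [← Nat.cast_add_choose ℚ (a := k) (b := j + 2)]
    congr 2
    omega
  have s1 : (-1 : ℚ) ^ (k + 1 + j + 1 + (k + 1) + 1) = (-1) ^ j := by
    have : k + 1 + j + 1 + (k + 1) + 1 = 2 * (k + 2) + j := by omega
    rw [this, pow_add, pow_mul]
    norm_num
  have s2 : (-1 : ℚ) ^ (k + 1 + j + (k + 1)) = (-1) ^ j := by
    have : k + 1 + j + (k + 1) = 2 * (k + 1) + j := by omega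
    rw [this, pow_add, pow_mul]
    norm_num
  have s3 : (-1 : ℚ) ^ (k + 1 + j + k) = -(-1) ^ j := by
    have : k + 1 + j + k = 2 * k + (j + 1) := by omega
    rw [this, pow_add, pow_mul, pow_succ (-1 : ℚ) j]
    norm_num
  have f1 : ((k + 1).factorial : ℚ) = ((k : ℚ) + 1) * (k.factorial : ℚ) := by
    rw [Nat.factorial_succ]; push_cast; ring
  have f2 : ((j + 1).factorial : ℚ) = ((j : ℚ) + 1) * (j.factorial : ℚ) := by
    rw [Nat.factorial_succ]; push_cast; ring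
  have f3 : ((j + 2).factorial : ℚ) = ((j : ℚ) + 2) * (((j : ℚ) + 1) * (j.factorial : ℚ)) := by
    rw [Nat.factorial_succ, Nat.factorial_succ]; push_cast; ring
  have f4 : ((k + 1 + (j + 2)).factorial : ℚ) =
      ((k : ℚ) + j + 3) * (((k : ℚ) + j + 2) * ((k + 1 + j).factorial : ℚ)) := by
    have : k + 1 + (j + 2) = k + 1 + j + 1 + 1 := by omega
    rw [this, Nat.factorial_succ, Nat.factorial_succ]; push_cast; ring
  have f5 : ((k + 1 + (j + 1)).factorial : ℚ) = ((k : ℚ) + j + 2) * ((k + 1 + j).factorial : ℚ) := by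
    have : k + 1 + (j + 1) = k + 1 + j + 1 := by omega
    rw [this, Nat.factorial_succ]; push_cast; ring
  have f5' : ((k + 1 + j + 1).factorial : ℚ) = ((k : ℚ) + j + 2) * ((k + 1 + j).factorial : ℚ) := by
    rw [Nat.factorial_succ]; push_cast; ring
  have f6 : ((k + (j + 2)).factorial : ℚ) = ((k : ℚ) + j + 2) * ((k + 1 + j).factorial : ℚ) := by
    have : k + (j + 2) = k + 1 + j + 1 := by omega
    rw [this, Nat.factorial_succ]; push_cast; ring
  have g0 : ((2 * (k + 1) + j).factorial : ℚ) = ((2 * k + (j + 2)).factorial : ℚ) := by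
    congr 2
    omega
  have g1 : ((2 * (k + 1) + j + 1).factorial : ℚ) =
      (2 * (k : ℚ) + j + 3) * ((2 * k + (j + 2)).factorial : ℚ) := by
    have : 2 * (k + 1) + j + 1 = 2 * k + (j + 2) + 1 := by omega
    rw [this, Nat.factorial_succ]; push_cast; ring
  have g2 : ((2 * (k + 1) + (j + 1) + 1).factorial : ℚ) =
      (2 * (k : ℚ) + j + 4) * ((2 * (k : ℚ) + j + 3) * ((2 * k + (j + 2)).factorial : ℚ)) := by
    have : 2 * (k + 1) + (j + 1) + 1 = 2 * k + (j + 2) + 1 + 1 := by omega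
    rw [this, Nat.factorial_succ, Nat.factorial_succ]; push_cast; ring
  have g3 : ((2 * (k + 1) + (j + 2)).factorial : ℚ) =
      (2 * (k : ℚ) + j + 4) * ((2 * (k : ℚ) + j + 3) * ((2 * k + (j + 2)).factorial : ℚ)) := by
    have : 2 * (k + 1) + (j + 2) = 2 * k + (j + 2) + 1 + 1 := by omega
    rw [this, Nat.factorial_succ, Nat.factorial_succ]; push_cast; ring
  have g4 : ((k + 1 + (k + 1 + j + 1)).factorial : ℚ) =
      (2 * (k : ℚ) + j + 3) * ((2 * k + (j + 2)).factorial : ℚ) := by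
    have : k + 1 + (k + 1 + j + 1) = 2 * k + (j + 2) + 1 := by omega
    rw [this, Nat.factorial_succ]; push_cast; ring
  simp only [BB, ee, RecA_tt]
  rw [d1, d2, l1, l2, l3, c1, c2, c3, s1, s2, s3, g0, g1, g2, g3, g4, f3, f4, f5, f5', f6, f1, f2,
    pow_succ (-1 : ℚ) j]
  have hk : (k.factorial : ℚ) ≠ 0 := by exact_mod_cast k.factorial_ne_zero
  have hj : (j.factorial : ℚ) ≠ 0 := by exact_mod_cast j.factorial_ne_zero
  have hkj : ((k + 1 + j).factorial : ℚ) ≠ 0 := by exact_mod_cast (k + 1 + j).factorial_ne_zero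
  have hg : ((2 * k + (j + 2)).factorial : ℚ) ≠ 0 := by
    exact_mod_cast (2 * k + (j + 2)).factorial_ne_zero
  have hs : ((-1 : ℚ) ^ j) ≠ 0 := by positivity
  generalize (k.factorial : ℚ) = A at *
  generalize (j.factorial : ℚ) = B at *
  generalize ((k + 1 + j).factorial : ℚ) = C at *
  generalize ((2 * k + (j + 2)).factorial : ℚ) = E at *
  generalize (-1 : ℚ) ^ j = s at *
  push_cast
  have hk0 : (0 : ℚ) ≤ k := Nat.cast_nonneg k
  have hj0 : (0 : ℚ) ≤ j := Nat.cast_nonneg j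
  generalize (k : ℚ) = x at *
  generalize (j : ℚ) = y at *
  have n1 : x + 1 ≠ 0 := by positivity
  have n2 : y + 1 ≠ 0 := by positivity
  have n3 : y + 2 ≠ 0 := by positivity
  have n4 : x + y + 2 ≠ 0 := by positivity
  have n5 : x + y + 3 ≠ 0 := by positivity
  have n6 : 2 * x + y + 3 ≠ 0 := by positivity
  have n7 : 2 * x + y + 4 ≠ 0 := by positivity
  have n8 : x + 1 + (y + 1) + 1 ≠ 0 := by positivity
  have n9 : x + 1 + y + 1 ≠ 0 := by positivity
  field_simp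
  ring

private theorem RecA_starB (k : ℕ) :
    ((k : ℚ) + 2) ^ 2 * lam (k + 2) (k + 1) * (cc (k + 2) (k + 1) - cc (k + 1) (k + 1)) +
      ((k : ℚ) + 1) ^ 2 * lam k (k + 1) * (cc (k + 1) (k + 1) - cc k (k + 1)) =
      BB (k + 1) k * ee (k + 1) (k + 1) + RecA_tt k (k + 1) - RecA_tt k k := by
  have d1 : cc (k + 2) (k + 1) - cc (k + 1) (k + 1) =
      (-1) ^ 0 * 2 * ((k + 1).factorial : ℚ) ^ 2 * ((0 : ℕ).factorial : ℚ) /
        ((((k + 1 : ℕ) : ℚ) + ((0 : ℕ) : ℚ) + 1) * ((2 * (k + 1) + 0 + 1).factorial : ℚ)) :=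
    cc_diff (k + 1) 0
  have l0 : lam k (k + 1) = 0 := lam_of_lt (Nat.lt_succ_self k)
  have l1 : lam (k + 2) (k + 1) =
      ((k + 1 + 1).factorial : ℚ) * ((2 * (k + 1) + 1).factorial : ℚ) /
        (((k + 1).factorial : ℚ) ^ 3 * ((1 : ℕ).factorial : ℚ) ^ 2) := lam_fact (k + 1) 1
  have l3 : lam (k + 1) k =
      ((k + 1).factorial : ℚ) * ((2 * k + 1).factorial : ℚ) /
        ((k.factorial : ℚ) ^ 3 * ((1 : ℕ).factorial : ℚ) ^ 2) := lam_fact k 1
  have c2 : ((k + 1 + (k + 1)).choose (k + 1) : ℚ) =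
      ((k + 1 + (k + 1)).factorial : ℚ) / (((k + 1).factorial : ℚ) * ((k + 1).factorial : ℚ)) :=
    Nat.cast_add_choose ℚ (a := k + 1) (b := k + 1)
  have s1 : (-1 : ℚ) ^ (k + 1 + (k + 1) + 1) = -1 := by
    have : k + 1 + (k + 1) + 1 = 2 * (k + 1) + 1 := by omega
    rw [this, pow_add, pow_mul]
    norm_num
  have s2 : (-1 : ℚ) ^ (k + (k + 1)) = -1 := by
    have : k + (k + 1) = 2 * k + 1 := by omega
    rw [this, pow_add, pow_mul]
    norm_num
  have s3 : (-1 : ℚ) ^ (k + k) = 1 := by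
    have : k + k = 2 * k := by omega
    rw [this, pow_mul]
    norm_num
  have f1 : ((k + 1).factorial : ℚ) = ((k : ℚ) + 1) * (k.factorial : ℚ) := by
    rw [Nat.factorial_succ]; push_cast; ring
  have f2 : ((k + 1 + 1).factorial : ℚ) = ((k : ℚ) + 2) * (((k : ℚ) + 1) * (k.factorial : ℚ)) := by
    rw [Nat.factorial_succ, Nat.factorial_succ]; push_cast; ring
  have g1 : ((2 * (k + 1) + 1).factorial : ℚ) =
      (2 * (k : ℚ) + 3) * ((2 * (k : ℚ) + 2) * ((2 * k + 1).factorial : ℚ)) := by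
    have : 2 * (k + 1) + 1 = 2 * k + 1 + 1 + 1 := by omega
    rw [this, Nat.factorial_succ, Nat.factorial_succ]; push_cast; ring
  have g3 : ((k + 1 + (k + 1)).factorial : ℚ) =
      (2 * (k : ℚ) + 2) * ((2 * k + 1).factorial : ℚ) := by
    have : k + 1 + (k + 1) = 2 * k + 1 + 1 := by omega
    rw [this, Nat.factorial_succ]; push_cast; ring
  have c4 : ((k + 1).choose (k + 1) : ℚ) = 1 := by simp
  have c5 : ((k + 1).choose k : ℚ) = (k : ℚ) + 1 := by
    rw [Nat.choose_succ_self_right]; push_cast; ring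
  simp only [BB, ee, RecA_tt]
  rw [d1, l0, l1, l3, c2, c4, c5, s1, s2, s3, g1, g3, f2, f1]
  have hk : (k.factorial : ℚ) ≠ 0 := by exact_mod_cast k.factorial_ne_zero
  have hg : ((2 * k + 1).factorial : ℚ) ≠ 0 := by
    exact_mod_cast (2 * k + 1).factorial_ne_zero
  generalize (k.factorial : ℚ) = A at *
  generalize ((2 * k + 1).factorial : ℚ) = E at *
  push_cast
  have hk0 : (0 : ℚ) ≤ k := Nat.cast_nonneg k
  generalize (k : ℚ) = x at *
  have n1 : x + 1 ≠ 0 := by positivity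
  have n2 : x + 2 ≠ 0 := by positivity
  have n3 : 2 * x + 3 ≠ 0 := by positivity
  have n4 : 2 * x + 2 ≠ 0 := by positivity
  have n5 : x + 1 + 0 + 1 ≠ 0 := by positivity
  simp only [Nat.factorial_zero, Nat.factorial_one, Nat.cast_one]
  field_simp
  ring

/-- the telescoping quantity -/
private def RecA_AA (N k : ℕ) : ℚ := BB (N + 1) k * cc (N + 1) k + RecA_tt N k

private theorem RecA_wz_of_star (N k : ℕ)
    (h : ((N : ℚ) + 2) ^ 2 * lam (N + 2) (k + 1) * (cc (N + 2) (k + 1) - cc (N + 1) (k + 1)) +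
      ((N : ℚ) + 1) ^ 2 * lam N (k + 1) * (cc (N + 1) (k + 1) - cc N (k + 1)) =
      BB (N + 1) k * ee (N + 1) (k + 1) + RecA_tt N (k + 1) - RecA_tt N k) :
    RecA_AA N (k + 1) - RecA_AA N k =
      ((N : ℚ) + 2) ^ 2 * (lam (N + 2) (k + 1) * cc (N + 2) (k + 1)) -
        (11 * ((N : ℚ) + 1) ^ 2 + 11 * ((N : ℚ) + 1) + 3) * (lam (N + 1) (k + 1) * cc (N + 1) (k + 1)) -
        ((N : ℚ) + 1) ^ 2 * (lam N (k + 1) * cc N (k + 1)) := by
  have h1 := wzB N k
  have h2 : cc (N + 1) (k + 1) = cc (N + 1) k + ee (N + 1) (k + 1) := cc_succ_right (N + 1) k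
  unfold RecA_AA
  have h3 : cc (N + 1) k = cc (N + 1) (k + 1) - ee (N + 1) (k + 1) := by rw [h2]; ring
  rw [h3]
  linear_combination (cc (N + 1) (k + 1)) * h1 - h

private theorem RecA_wz_top (N : ℕ) : RecA_AA N (N + 2) - RecA_AA N (N + 1) =
      ((N : ℚ) + 2) ^ 2 * (lam (N + 2) (N + 2) * cc (N + 2) (N + 2)) -
        (11 * ((N : ℚ) + 1) ^ 2 + 11 * ((N : ℚ) + 1) + 3) * (lam (N + 1) (N + 2) * cc (N + 1) (N + 2)) -
        ((N : ℚ) + 1) ^ 2 * (lam N (N + 2) * cc N (N + 2)) := by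
  have h1 : BB (N + 1) (N + 2) - BB (N + 1) (N + 1) =
    ((N : ℚ) + 2) ^ 2 * lam (N + 2) (N + 2) - (11 * ((N : ℚ) + 1) ^ 2 + 11 * ((N : ℚ) + 1) + 3) *
      lam (N + 1) (N + 2) - ((N : ℚ) + 1) ^ 2 * lam N (N + 2) := wzB N (N + 1)
  have z1 : lam (N + 1) (N + 2) = 0 := lam_of_lt (by omega)
  have z2 : lam N (N + 2) = 0 := lam_of_lt (by omega)
  have z3 : BB (N + 1) (N + 2) = 0 := by
    unfold BB
    rw [z1, mul_zero]
  have d1 : cc (N + 2) (N + 1) - cc (N + 1) (N + 1) =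
      (-1) ^ 0 * 2 * ((N + 1).factorial : ℚ) ^ 2 * ((0 : ℕ).factorial : ℚ) /
        ((((N + 1 : ℕ) : ℚ) + ((0 : ℕ) : ℚ) + 1) * ((2 * (N + 1) + 0 + 1).factorial : ℚ)) :=
    cc_diff (N + 1) 0
  have h2 : cc (N + 2) (N + 2) = cc (N + 2) (N + 1) + ee (N + 2) (N + 2) := cc_succ_right (N + 2) (N + 1)
  have l1 : lam (N + 2) (N + 2) =
      ((N + 2).factorial : ℚ) * ((2 * (N + 2)).factorial : ℚ) /
        (((N + 2).factorial : ℚ) ^ 3 * ((0 : ℕ).factorial : ℚ) ^ 2) := lam_fact (N + 2) 0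
  have c2 : ((N + 2 + (N + 2)).choose (N + 2) : ℚ) =
      ((N + 2 + (N + 2)).factorial : ℚ) / (((N + 2).factorial : ℚ) * ((N + 2).factorial : ℚ)) :=
    Nat.cast_add_choose ℚ (a := N + 2) (b := N + 2)
  have c4 : ((N + 2).choose (N + 2) : ℚ) = 1 := by simp
  have t1 : RecA_tt N (N + 2) = 0 := by
    unfold RecA_tt
    rw [Nat.choose_eq_zero_of_lt (by omega)]
    simp
  have s2 : (-1 : ℚ) ^ (N + (N + 1)) = -1 := by
    have : N + (N + 1) = 2 * N + 1 := by omega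
    rw [this, pow_add, pow_mul]
    norm_num
  have t2 : RecA_tt N (N + 1) = -3 := by
    have hN : ((N : ℚ) + 1) ≠ 0 := by positivity
    unfold RecA_tt
    rw [s2, Nat.choose_self]
    push_cast
    rw [div_self hN]
    norm_num
  have s1 : (-1 : ℚ) ^ (N + 2 + (N + 2) + 1) = -1 := by
    have : N + 2 + (N + 2) + 1 = 2 * (N + 2) + 1 := by omega
    rw [this, pow_add, pow_mul]
    norm_num
  have f2 : ((N + 2).factorial : ℚ) = ((N : ℚ) + 2) * ((N + 1).factorial : ℚ) := by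
    have : N + 2 = N + 1 + 1 := by omega
    rw [this, Nat.factorial_succ]; push_cast; ring
  have g1 : ((2 * (N + 2)).factorial : ℚ) = (2 * (N : ℚ) + 4) * ((2 * (N + 1) + 0 + 1).factorial : ℚ) := by
    have : 2 * (N + 2) = 2 * (N + 1) + 0 + 1 + 1 := by omega
    rw [this, Nat.factorial_succ]; push_cast; ring
  have g2 : ((N + 2 + (N + 2)).factorial : ℚ) = (2 * (N : ℚ) + 4) * ((2 * (N + 1) + 0 + 1).factorial : ℚ) := by
    rw [← g1]
    congr 2
    omega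
  have hn : ((N + 1).factorial : ℚ) ≠ 0 := by exact_mod_cast (N + 1).factorial_ne_zero
  have hg : ((2 * (N + 1) + 0 + 1).factorial : ℚ) ≠ 0 := by
    exact_mod_cast (2 * (N + 1) + 0 + 1).factorial_ne_zero
  have key : ((N : ℚ) + 2) ^ 2 * lam (N + 2) (N + 2) * (cc (N + 2) (N + 2) - cc (N + 1) (N + 1)) = 3 := by
    have h3 : cc (N + 2) (N + 2) - cc (N + 1) (N + 1) =
        (cc (N + 2) (N + 1) - cc (N + 1) (N + 1)) + ee (N + 2) (N + 2) := by
      rw [h2]; ring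
    rw [h3, d1, l1]
    simp only [ee]
    rw [c2, c4, s1, g2, g1, f2]
    generalize ((N + 1).factorial : ℚ) = A at *
    generalize ((2 * (N + 1) + 0 + 1).factorial : ℚ) = E at *
    push_cast
    have hk0 : (0 : ℚ) ≤ N := Nat.cast_nonneg N
    generalize (N : ℚ) = x at *
    have n2 : x + 2 ≠ 0 := by positivity
    have n4 : 2 * x + 4 ≠ 0 := by positivity
    have n5 : x + 1 + 0 + 1 ≠ 0 := by positivity
    simp only [Nat.factorial_zero, Nat.cast_one]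
    field_simp
    ring
  unfold RecA_AA
  rw [z3, t1, t2, z1, z2]
  rw [z3, z1, z2] at h1
  linear_combination cc (N + 1) (N + 1) * h1 - key

private theorem RecA_wz (N k : ℕ) (hk : k ≤ N + 1) : RecA_AA N (k + 1) - RecA_AA N k =
      ((N : ℚ) + 2) ^ 2 * (lam (N + 2) (k + 1) * cc (N + 2) (k + 1)) -
        (11 * ((N : ℚ) + 1) ^ 2 + 11 * ((N : ℚ) + 1) + 3) * (lam (N + 1) (k + 1) * cc (N + 1) (k + 1)) -
        ((N : ℚ) + 1) ^ 2 * (lam N (k + 1) * cc N (k + 1)) := by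
  rcases Nat.lt_or_ge k N with h | h
  · obtain ⟨j, rfl⟩ : ∃ j, N = k + 1 + j := ⟨N - (k + 1), by omega⟩
    exact RecA_wz_of_star _ _ (RecA_starA k j)
  · rcases Nat.eq_or_lt_of_le h with h | h
    · subst h
      exact RecA_wz_of_star _ _ (RecA_starB N)
    · have h2 : k = N + 1 := by omega
      subst h2
      exact RecA_wz_top N

theorem rec_aa (N : ℕ) : ((N : ℚ) + 2) ^ 2 * aa (N + 2) =
    (11 * ((N : ℚ) + 1) ^ 2 + 11 * ((N : ℚ) + 1) + 3) * aa (N + 1) + ((N : ℚ) + 1) ^ 2 * aa N := by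
  have a2 : aa (N + 2) = cc (N + 2) 0 +
      ∑ k ∈ range (N + 2), lam (N + 2) (k + 1) * cc (N + 2) (k + 1) := by
    unfold aa
    rw [Finset.sum_range_succ' _ (N + 2), lam_zero_right]
    ring
  have a1 : aa (N + 1) = cc (N + 1) 0 +
      ∑ k ∈ range (N + 2), lam (N + 1) (k + 1) * cc (N + 1) (k + 1) := by
    unfold aa
    rw [Finset.sum_range_succ' _ (N + 1), lam_zero_right, Finset.sum_range_succ _ (N + 1),
      lam_of_lt (show N + 1 < N + 1 + 1 by omega)]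
    ring
  have a0 : aa N = cc N 0 + ∑ k ∈ range (N + 2), lam N (k + 1) * cc N (k + 1) := by
    unfold aa
    rw [Finset.sum_range_succ' _ N, lam_zero_right, Finset.sum_range_succ _ (N + 1),
      Finset.sum_range_succ _ N, lam_of_lt (show N < N + 1 + 1 by omega),
      lam_of_lt (show N < N + 1 by omega)]
    ring
  have tel : RecA_AA N (N + 2) - RecA_AA N 0 =
      ((N : ℚ) + 2) ^ 2 * (aa (N + 2) - cc (N + 2) 0) -
        (11 * ((N : ℚ) + 1) ^ 2 + 11 * ((N : ℚ) + 1) + 3) * (aa (N + 1) - cc (N + 1) 0) -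
        ((N : ℚ) + 1) ^ 2 * (aa N - cc N 0) := by
    have e2 : aa (N + 2) - cc (N + 2) 0 =
        ∑ k ∈ range (N + 2), lam (N + 2) (k + 1) * cc (N + 2) (k + 1) := by rw [a2]; ring
    have e1 : aa (N + 1) - cc (N + 1) 0 =
        ∑ k ∈ range (N + 2), lam (N + 1) (k + 1) * cc (N + 1) (k + 1) := by rw [a1]; ring
    have e0 : aa N - cc N 0 = ∑ k ∈ range (N + 2), lam N (k + 1) * cc N (k + 1) := by rw [a0]; ring
    rw [e2, e1, e0, Finset.mul_sum, Finset.mul_sum, Finset.mul_sum, ← Finset.sum_sub_distrib,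
      ← Finset.sum_sub_distrib, ← Finset.sum_range_sub]
    apply Finset.sum_congr rfl
    intro k hk
    exact RecA_wz N k (by have := Finset.mem_range.mp hk; omega)
  have z1 : RecA_AA N (N + 2) = 0 := by
    unfold RecA_AA BB RecA_tt
    rw [lam_of_lt (show N + 1 < N + 2 by omega), Nat.choose_eq_zero_of_lt (show N + 1 < N + 2 by omega)]
    simp
  have z0 : RecA_AA N 0 = (-11 * ((N : ℚ) + 1) ^ 2 - 9 * ((N : ℚ) + 1) - 2) * cc (N + 1) 0 := by
    unfold RecA_AA BB RecA_tt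
    rw [lam_zero_right]
    push_cast
    ring
  have c2 : cc (N + 2) 0 = cc (N + 1) 0 + 2 * ((-1) ^ (N + 2 + 1) / ((N : ℚ) + 2) ^ 2) := by
    rw [cc_zero_right, cc_zero_right, Finset.sum_Icc_succ_top (by omega)]
    push_cast
    ring
  have c1 : cc (N + 1) 0 = cc N 0 + 2 * ((-1) ^ (N + 1 + 1) / ((N : ℚ) + 1) ^ 2) := by
    rw [cc_zero_right, cc_zero_right, Finset.sum_Icc_succ_top (by omega)]
    push_cast
    ring
  have p2 : ((N : ℚ) + 2) ^ 2 * ((-1) ^ (N + 2 + 1) / ((N : ℚ) + 2) ^ 2) = (-1) ^ (N + 2 + 1) := by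
    have : ((N : ℚ) + 2) ^ 2 ≠ 0 := by positivity
    field_simp
  have p1 : ((N : ℚ) + 1) ^ 2 * ((-1) ^ (N + 1 + 1) / ((N : ℚ) + 1) ^ 2) = (-1) ^ (N + 1 + 1) := by
    have : ((N : ℚ) + 1) ^ 2 ≠ 0 := by positivity
    field_simp
  have s : (-1 : ℚ) ^ (N + 2 + 1) = -(-1) ^ (N + 1 + 1) := by
    rw [show N + 2 + 1 = N + 1 + 1 + 1 by omega, pow_succ (-1 : ℚ) (N + 1 + 1)]
    ring
  rw [z1, z0, c2] at tel
  have c1' : cc N 0 = cc (N + 1) 0 - 2 * ((-1) ^ (N + 1 + 1) / ((N : ℚ) + 1) ^ 2) := by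
    rw [c1]; ring
  rw [c1'] at tel
  rw [s] at p2 tel
  linear_combination (-1) * tel + 2 * p2 + 2 * p1

end Pool.Agent.H60.AP
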