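import Pool.Agent.H60.AP.Defs

/-!
# RecB: the recurrence of `bb` by the certificate `BB`

PROOF.  `BB n (k+1) - BB n k = (n+1)^2 lam (n+1) (k+1) - (11 n^2 + 11 n + 3) lam n (k+1) - n^2 lam (n-1) (k+1)` for all
`n ≥ 1` and all `k` (`wzB`, here with `n = N + 1`).  Cases: (i) `k + 1 ≤ N`: write `N = k + 1 + j`; use
`Nat.cast_add_choose`, `C(a+b, a) = (a+b)!/(a! b!)`, for all binomials (`C(n,k) , C(n+k,k)`), so `lam (k+j) k =
(k+j)! (2k+j)!/(k!^3 j!^2)` (make this a lemma, `n = k + j`), then `Nat.factorial_succ`, `field_simp`, `ring`.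
(ii) `k + 1 = N + 1`, (iii) `k + 1 = N + 2`: some `lam` vanish (`lam_of_lt`), same computation with `lam n n`, `lam n (n-1)`;
(iv) `k + 1 > N + 2`: everything is `0`.
Sum over `k ∈ range (N + 2)` (telescoping, `BB n (N + 2) = 0`) and `k = 0`:
`BB n 0 = -(11 n^2 + 9 n + 2) = (n+1)^2 - (11 n^2 + 11 n + 3) - n^2`.  The terms added to make all three sums run to the
same bound are `0`.  About 130 lines.  (Numerically checked.)
-/

set_option autoImplicit false

namespace Pool.Agent.H60.AP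

open Finset

/-- `lam (k+j) k` by factorials. -/
theorem lam_fact (k j : ℕ) : lam (k + j) k =
    ((k + j).factorial : ℚ) * ((2 * k + j).factorial : ℚ) / ((k.factorial : ℚ) ^ 3 * (j.factorial : ℚ) ^ 2) := by
  have c1 : ((k + j).choose k : ℚ) = ((k + j).factorial : ℚ) / ((k.factorial : ℚ) * (j.factorial : ℚ)) :=
    Nat.cast_add_choose ℚ (a := k) (b := j)
  have c2 : ((k + j + k).choose k : ℚ) =
      ((2 * k + j).factorial : ℚ) / ((k.factorial : ℚ) * ((k + j).factorial : ℚ)) := by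
    have h : 2 * k + j = k + (k + j) := by omega
    have h' : k + j + k = k + (k + j) := by omega
    rw [h, h', Nat.cast_add_choose ℚ (a := k) (b := k + j)]
  unfold lam
  rw [c1, c2]
  have hk : (k.factorial : ℚ) ≠ 0 := by exact_mod_cast k.factorial_ne_zero
  have hj : (j.factorial : ℚ) ≠ 0 := by exact_mod_cast j.factorial_ne_zero
  have hkj : ((k + j).factorial : ℚ) ≠ 0 := by exact_mod_cast (k + j).factorial_ne_zero
  field_simp

private theorem RecB_fs (n : ℕ) : ((n + 1).factorial : ℚ) = ((n : ℚ) + 1) * (n.factorial : ℚ) := by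
  rw [Nat.factorial_succ]; push_cast; ring

private theorem RecB_gen (k j : ℕ) : BB (k + 1 + j + 1) (k + 1) - BB (k + 1 + j + 1) k =
    (((k + 1 + j : ℕ) : ℚ) + 2) ^ 2 * lam (k + 1 + j + 2) (k + 1) -
      (11 * (((k + 1 + j : ℕ) : ℚ) + 1) ^ 2 + 11 * (((k + 1 + j : ℕ) : ℚ) + 1) + 3) *
        lam (k + 1 + j + 1) (k + 1) - (((k + 1 + j : ℕ) : ℚ) + 1) ^ 2 * lam (k + 1 + j) (k + 1) := by
  have l1 : lam (k + 1 + j + 2) (k + 1) =
      ((k + 1 + (j + 2)).factorial : ℚ) * ((2 * (k + 1) + (j + 2)).factorial : ℚ) /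
        (((k + 1).factorial : ℚ) ^ 3 * ((j + 2).factorial : ℚ) ^ 2) := lam_fact (k + 1) (j + 2)
  have l2 : lam (k + 1 + j + 1) (k + 1) =
      ((k + 1 + (j + 1)).factorial : ℚ) * ((2 * (k + 1) + (j + 1)).factorial : ℚ) /
        (((k + 1).factorial : ℚ) ^ 3 * ((j + 1).factorial : ℚ) ^ 2) := lam_fact (k + 1) (j + 1)
  have l3 : lam (k + 1 + j) (k + 1) =
      ((k + 1 + j).factorial : ℚ) * ((2 * (k + 1) + j).factorial : ℚ) /
        (((k + 1).factorial : ℚ) ^ 3 * (j.factorial : ℚ) ^ 2) := lam_fact (k + 1) j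
  have l4 : lam (k + 1 + j + 1) k =
      ((k + (j + 2)).factorial : ℚ) * ((2 * k + (j + 2)).factorial : ℚ) /
        ((k.factorial : ℚ) ^ 3 * ((j + 2).factorial : ℚ) ^ 2) := by
    rw [← lam_fact k (j + 2)]
    congr 1
    omega
  have a1 : ((k + (j + 2)).factorial : ℚ) = ((k : ℚ) + j + 2) * ((k + 1 + j).factorial : ℚ) := by
    have : k + (j + 2) = (k + 1 + j) + 1 := by omega
    rw [this, RecB_fs]; push_cast; ring
  have a2 : ((k + 1 + (j + 1)).factorial : ℚ) = ((k : ℚ) + j + 2) * ((k + 1 + j).factorial : ℚ) := by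
    have : k + 1 + (j + 1) = (k + 1 + j) + 1 := by omega
    rw [this, RecB_fs]; push_cast; ring
  have a3 : ((k + 1 + (j + 2)).factorial : ℚ) =
      ((k : ℚ) + j + 3) * (((k : ℚ) + j + 2) * ((k + 1 + j).factorial : ℚ)) := by
    have : k + 1 + (j + 2) = ((k + 1 + j) + 1) + 1 := by omega
    rw [this, RecB_fs, RecB_fs]; push_cast; ring
  have b1 : ((2 * (k + 1) + j).factorial : ℚ) = ((2 * k + (j + 2)).factorial : ℚ) := by
    have : 2 * (k + 1) + j = 2 * k + (j + 2) := by omega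
    rw [this]
  have b2 : ((2 * (k + 1) + (j + 1)).factorial : ℚ) =
      (2 * (k : ℚ) + j + 3) * ((2 * k + (j + 2)).factorial : ℚ) := by
    have : 2 * (k + 1) + (j + 1) = (2 * k + (j + 2)) + 1 := by omega
    rw [this, RecB_fs]; push_cast; ring
  have b3 : ((2 * (k + 1) + (j + 2)).factorial : ℚ) =
      (2 * (k : ℚ) + j + 4) * ((2 * (k : ℚ) + j + 3) * ((2 * k + (j + 2)).factorial : ℚ)) := by
    have : 2 * (k + 1) + (j + 2) = ((2 * k + (j + 2)) + 1) + 1 := by omega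
    rw [this, RecB_fs, RecB_fs]; push_cast; ring
  have e1 : ((j + 2).factorial : ℚ) = ((j : ℚ) + 2) * (((j : ℚ) + 1) * (j.factorial : ℚ)) := by
    have : j + 2 = (j + 1) + 1 := rfl
    rw [this, RecB_fs, RecB_fs]; push_cast; ring
  unfold BB
  rw [l1, l2, l3, l4, a1, a2, a3, b1, b2, b3, e1, RecB_fs k, RecB_fs j]
  have hk : (k.factorial : ℚ) ≠ 0 := by exact_mod_cast k.factorial_ne_zero
  have hj : (j.factorial : ℚ) ≠ 0 := by exact_mod_cast j.factorial_ne_zero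
  have hkj : ((k + 1 + j).factorial : ℚ) ≠ 0 := by exact_mod_cast (k + 1 + j).factorial_ne_zero
  have hg : ((2 * k + (j + 2)).factorial : ℚ) ≠ 0 := by
    exact_mod_cast (2 * k + (j + 2)).factorial_ne_zero
  generalize (k.factorial : ℚ) = A at *
  generalize (j.factorial : ℚ) = B at *
  generalize ((k + 1 + j).factorial : ℚ) = C at *
  generalize ((2 * k + (j + 2)).factorial : ℚ) = E at *
  push_cast
  have hk0 : (0 : ℚ) ≤ k := Nat.cast_nonneg k
  have hj0 : (0 : ℚ) ≤ j := Nat.cast_nonneg j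
  generalize (k : ℚ) = x at *
  generalize (j : ℚ) = y at *
  have n1 : x + 1 ≠ 0 := by positivity
  have n2 : y + 1 ≠ 0 := by positivity
  have n3 : y + 2 ≠ 0 := by positivity
  field_simp
  ring

private theorem RecB_mid (N : ℕ) : BB (N + 1) (N + 1) - BB (N + 1) N =
    ((N : ℚ) + 2) ^ 2 * lam (N + 2) (N + 1) - (11 * ((N : ℚ) + 1) ^ 2 + 11 * ((N : ℚ) + 1) + 3) *
      lam (N + 1) (N + 1) - ((N : ℚ) + 1) ^ 2 * lam N (N + 1) := by
  have l1 : lam (N + 2) (N + 1) =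
      ((N + 1 + 1).factorial : ℚ) * ((2 * (N + 1) + 1).factorial : ℚ) /
        (((N + 1).factorial : ℚ) ^ 3 * ((1 : ℕ).factorial : ℚ) ^ 2) := lam_fact (N + 1) 1
  have l2 : lam (N + 1) (N + 1) =
      ((N + 1 + 0).factorial : ℚ) * ((2 * (N + 1) + 0).factorial : ℚ) /
        (((N + 1).factorial : ℚ) ^ 3 * ((0 : ℕ).factorial : ℚ) ^ 2) := lam_fact (N + 1) 0
  have l3 : lam (N + 1) N =
      ((N + 1).factorial : ℚ) * ((2 * N + 1).factorial : ℚ) /
        ((N.factorial : ℚ) ^ 3 * ((1 : ℕ).factorial : ℚ) ^ 2) := lam_fact N 1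
  have l4 : lam N (N + 1) = 0 := lam_of_lt (Nat.lt_succ_self N)
  have a0 : ((N + 1 + 0).factorial : ℚ) = ((N : ℚ) + 1) * (N.factorial : ℚ) := RecB_fs N
  have a1 : ((N + 1 + 1).factorial : ℚ) = ((N : ℚ) + 2) * (((N : ℚ) + 1) * (N.factorial : ℚ)) := by
    rw [RecB_fs, RecB_fs]; push_cast; ring
  have b1 : ((2 * (N + 1) + 0).factorial : ℚ) = (2 * (N : ℚ) + 2) * ((2 * N + 1).factorial : ℚ) := by
    have : 2 * (N + 1) + 0 = (2 * N + 1) + 1 := by omega
    rw [this, RecB_fs]; push_cast; ring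
  have b2 : ((2 * (N + 1) + 1).factorial : ℚ) =
      (2 * (N : ℚ) + 3) * ((2 * (N : ℚ) + 2) * ((2 * N + 1).factorial : ℚ)) := by
    have : 2 * (N + 1) + 1 = ((2 * N + 1) + 1) + 1 := by omega
    rw [this, RecB_fs, RecB_fs]; push_cast; ring
  unfold BB
  rw [l1, l2, l3, l4, a0, a1, b1, b2, Nat.factorial_zero, Nat.factorial_one]
  have hk : (N.factorial : ℚ) ≠ 0 := by exact_mod_cast N.factorial_ne_zero
  have hg : ((2 * N + 1).factorial : ℚ) ≠ 0 := by exact_mod_cast (2 * N + 1).factorial_ne_zero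
  generalize (N.factorial : ℚ) = A at *
  generalize ((2 * N + 1).factorial : ℚ) = E at *
  push_cast
  have hk0 : (0 : ℚ) ≤ N := Nat.cast_nonneg N
  generalize (N : ℚ) = x at *
  have n1 : x + 1 ≠ 0 := by positivity
  field_simp
  ring

private theorem RecB_top (N : ℕ) : BB (N + 1) (N + 2) - BB (N + 1) (N + 1) =
    ((N : ℚ) + 2) ^ 2 * lam (N + 2) (N + 2) - (11 * ((N : ℚ) + 1) ^ 2 + 11 * ((N : ℚ) + 1) + 3) *
      lam (N + 1) (N + 2) - ((N : ℚ) + 1) ^ 2 * lam N (N + 2) := by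
  have l1 : lam (N + 2) (N + 2) =
      ((N + 2 + 0).factorial : ℚ) * ((2 * (N + 2) + 0).factorial : ℚ) /
        (((N + 2).factorial : ℚ) ^ 3 * ((0 : ℕ).factorial : ℚ) ^ 2) := lam_fact (N + 2) 0
  have l2 : lam (N + 1) (N + 1) =
      ((N + 1 + 0).factorial : ℚ) * ((2 * (N + 1) + 0).factorial : ℚ) /
        (((N + 1).factorial : ℚ) ^ 3 * ((0 : ℕ).factorial : ℚ) ^ 2) := lam_fact (N + 1) 0
  have l3 : lam (N + 1) (N + 2) = 0 := lam_of_lt (Nat.lt_succ_self (N + 1))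
  have l4 : lam N (N + 2) = 0 := lam_of_lt (by omega)
  have a0 : ((N + 1 + 0).factorial : ℚ) = ((N : ℚ) + 1) * (N.factorial : ℚ) := RecB_fs N
  have a1 : ((N + 2).factorial : ℚ) = ((N : ℚ) + 2) * (((N : ℚ) + 1) * (N.factorial : ℚ)) := by
    have : N + 2 = (N + 1) + 1 := rfl
    rw [this, RecB_fs, RecB_fs]; push_cast; ring
  have a2 : ((N + 2 + 0).factorial : ℚ) = ((N : ℚ) + 2) * (((N : ℚ) + 1) * (N.factorial : ℚ)) := a1
  have b2 : ((2 * (N + 2) + 0).factorial : ℚ) =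
      (2 * (N : ℚ) + 4) * ((2 * (N : ℚ) + 3) * ((2 * (N + 1) + 0).factorial : ℚ)) := by
    have : 2 * (N + 2) + 0 = ((2 * (N + 1) + 0) + 1) + 1 := by omega
    rw [this, RecB_fs, RecB_fs]; push_cast; ring
  unfold BB
  rw [l1, l2, l3, l4, a0, a2, b2, Nat.factorial_zero]
  have hk : (N.factorial : ℚ) ≠ 0 := by exact_mod_cast N.factorial_ne_zero
  have hg : ((2 * (N + 1) + 0).factorial : ℚ) ≠ 0 := by
    exact_mod_cast (2 * (N + 1) + 0).factorial_ne_zero
  generalize (N.factorial : ℚ) = A at *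
  generalize ((2 * (N + 1) + 0).factorial : ℚ) = E at *
  push_cast
  have hk0 : (0 : ℚ) ≤ N := Nat.cast_nonneg N
  generalize (N : ℚ) = x at *
  have n1 : x + 1 ≠ 0 := by positivity
  have n2 : x + 2 ≠ 0 := by positivity
  field_simp
  ring

theorem wzB (N k : ℕ) : BB (N + 1) (k + 1) - BB (N + 1) k =
    ((N : ℚ) + 2) ^ 2 * lam (N + 2) (k + 1) - (11 * ((N : ℚ) + 1) ^ 2 + 11 * ((N : ℚ) + 1) + 3) * lam (N + 1) (k + 1)
      - ((N : ℚ) + 1) ^ 2 * lam N (k + 1) := by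
  rcases lt_trichotomy k N with h | h | h
  · obtain ⟨j, rfl⟩ : ∃ j, N = k + 1 + j := ⟨N - (k + 1), by omega⟩
    exact RecB_gen k j
  · subst h
    exact RecB_mid k
  · rcases Nat.lt_or_ge (N + 1) k with h' | h'
    · have z1 : lam (N + 2) (k + 1) = 0 := lam_of_lt (by omega)
      have z2 : lam (N + 1) (k + 1) = 0 := lam_of_lt (by omega)
      have z3 : lam N (k + 1) = 0 := lam_of_lt (by omega)
      have z4 : lam (N + 1) k = 0 := lam_of_lt (by omega)
      simp only [BB, z1, z2, z3, z4]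
      ring
    · have : k = N + 1 := by omega
      subst this
      exact RecB_top N

theorem rec_bb (N : ℕ) : ((N : ℚ) + 2) ^ 2 * bb (N + 2) =
    (11 * ((N : ℚ) + 1) ^ 2 + 11 * ((N : ℚ) + 1) + 3) * bb (N + 1) + ((N : ℚ) + 1) ^ 2 * bb N := by
  have e1 : bb (N + 1) = ∑ k ∈ range (N + 3), lam (N + 1) k := by
    rw [sum_range_succ, lam_of_lt (show N + 1 < N + 2 by omega), add_zero]
    rfl
  have e2 : bb N = ∑ k ∈ range (N + 3), lam N k := by
    rw [sum_range_succ, lam_of_lt (show N < N + 2 by omega), sum_range_succ,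
      lam_of_lt (show N < N + 1 by omega), add_zero, add_zero]
    rfl
  have e3 : bb (N + 2) = ∑ k ∈ range (N + 3), lam (N + 2) k := rfl
  have key : ∑ k ∈ range (N + 3), (((N : ℚ) + 2) ^ 2 * lam (N + 2) k -
      (11 * ((N : ℚ) + 1) ^ 2 + 11 * ((N : ℚ) + 1) + 3) * lam (N + 1) k -
      ((N : ℚ) + 1) ^ 2 * lam N k) = 0 := by
    rw [sum_range_succ']
    have : ∀ k ∈ range (N + 2), (((N : ℚ) + 2) ^ 2 * lam (N + 2) (k + 1) -
        (11 * ((N : ℚ) + 1) ^ 2 + 11 * ((N : ℚ) + 1) + 3) * lam (N + 1) (k + 1) -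
        ((N : ℚ) + 1) ^ 2 * lam N (k + 1)) = BB (N + 1) (k + 1) - BB (N + 1) k :=
      fun k _ => (wzB N k).symm
    rw [sum_congr rfl this, sum_range_sub]
    have z : BB (N + 1) (N + 2) = 0 := by
      unfold BB
      rw [lam_of_lt (show N + 1 < N + 2 by omega), mul_zero]
    rw [z]
    simp only [BB, lam_zero_right]
    push_cast
    ring
  rw [sum_sub_distrib, sum_sub_distrib, ← mul_sum, ← mul_sum, ← mul_sum, ← e1, ← e2, ← e3] at key
  linarith

end Pool.Agent.H60.AP
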